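import Pool.Agent.K3h68.IL.Lift

/-!
Choice of an ergodic component of the lift.
-/

set_option autoImplicit false

open MeasureTheory Filter Topology Set
open scoped ENNReal

namespace Pool.Agent.K3h68.IL

open Pool.Agent.R202.STP Pool.Agent.R202.TM

/-- the strictly invariant measurable sets -/
def Iv (p q : ℕ) (E : Set UnitAddCircle) : Prop :=
  MeasurableSet E ∧ (fun x : UnitAddCircle => p • x) ⁻¹' E = E ∧
    (fun x : UnitAddCircle => q • x) ⁻¹' E = E

lemma Iv.inter {p q : ℕ} {E F : Set UnitAddCircle} (hE : Iv p q E) (hF : Iv p q F) :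
    Iv p q (E ∩ F) :=
  ⟨hE.1.inter hF.1, by rw [preimage_inter, hE.2.1, hF.2.1], by rw [preimage_inter, hE.2.2, hF.2.2]⟩

lemma Iv.diff {p q : ℕ} {E F : Set UnitAddCircle} (hE : Iv p q E) (hF : Iv p q F) :
    Iv p q (E \ F) :=
  ⟨hE.1.diff hF.1, by rw [preimage_sdiff, hE.2.1, hF.2.1], by rw [preimage_sdiff, hE.2.2, hF.2.2]⟩

lemma Iv.univ (p q : ℕ) : Iv p q Set.univ := ⟨MeasurableSet.univ, rfl, rfl⟩

/-- an ergodic piece with small mean of `J` -/
theorem exists_piece {p q : ℕ} (ρ : Measure UnitAddCircle) [IsProbabilityMeasure ρ] {n : ℕ}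
    (hn : 0 < n) (hk : ∀ E, Iv p q E → ∃ k : ℕ, ρ.real E = k / n) (J : Set UnitAddCircle → ℝ) {c : ℝ}
    (hJ : ∀ E F, Iv p q E → Iv p q F → J (E ∩ F) + J (E \ F) = J E) (hJu : J Set.univ ≤ c) :
    ∃ E, Iv p q E ∧ 0 < ρ.real E ∧ J E ≤ c * ρ.real E ∧
      ∀ F, Iv p q F → ρ.real (E ∩ F) = 0 ∨ ρ.real (E ∩ F) = ρ.real E := by
  have hnR : (0 : ℝ) < n := by exact_mod_cast hn
  have key : ∀ k : ℕ, ∀ E, Iv p q E → ρ.real E = k / n → 0 < k → J E ≤ c * ρ.real E →
      ∃ E, Iv p q E ∧ 0 < ρ.real E ∧ J E ≤ c * ρ.real E ∧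
      ∀ F, Iv p q F → ρ.real (E ∩ F) = 0 ∨ ρ.real (E ∩ F) = ρ.real E := by
    intro k
    induction k using Nat.strong_induction_on with
    | _ k ih =>
      intro E hE hEk hk0 hJE
      by_cases herg : ∀ F, Iv p q F → ρ.real (E ∩ F) = 0 ∨ ρ.real (E ∩ F) = ρ.real E
      · refine ⟨E, hE, ?_, hJE, herg⟩
        rw [hEk]
        have : (0 : ℝ) < k := by exact_mod_cast hk0
        positivity
      · push Not at herg
        obtain ⟨F, hF, h1, h2⟩ := herg
        have hadd : ρ.real (E ∩ F) + ρ.real (E \ F) = ρ.real E :=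
          measureReal_inter_add_sdiff hF.1
        obtain ⟨k1, hk1⟩ := hk _ (hE.inter hF)
        obtain ⟨k2, hk2⟩ := hk _ (hE.diff hF)
        have h3 : k1 ≠ 0 := by
          rintro rfl
          apply h1
          rw [hk1]
          simp
        have h4 : k2 ≠ 0 := by
          rintro rfl
          apply h2
          rw [← hadd, hk2]
          simp
        have h5 : k1 + k2 = k := by
          rw [hk1, hk2, hEk, ← add_div] at hadd
          have h6 := (div_left_inj' hnR.ne').1 hadd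
          exact_mod_cast h6
        have h6 := hJ E F hE hF
        by_cases h7 : J (E ∩ F) ≤ c * ρ.real (E ∩ F)
        · exact ih k1 (by omega) _ (hE.inter hF) hk1 (by omega) h7
        · refine ih k2 (by omega) _ (hE.diff hF) hk2 (by omega) ?_
          push Not at h7
          rw [← hadd, mul_add] at hJE
          linarith
  obtain ⟨k, hk'⟩ := hk _ (Iv.univ p q)
  refine key k _ (Iv.univ p q) hk' ?_ ?_
  · rw [probReal_univ] at hk'
    rcases Nat.eq_zero_or_pos k with rfl | h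
    · simp at hk'
    · exact h
  · rw [probReal_univ, mul_one]
    exact hJu

/-- **Ergodic lifts.** -/
theorem erg_lift {p q n : ℕ} (hn : 0 < n) (h1 : Nat.Coprime n p) (h2 : Nat.Coprime n q)
    {ν : Measure UnitAddCircle} [IsProbabilityMeasure ν]
    (hp : MeasurePreserving (fun x : UnitAddCircle => p • x) ν ν)
    (hq : MeasurePreserving (fun x : UnitAddCircle => q • x) ν ν)
    (herg : JointErg (fun x : UnitAddCircle => p • x) (fun x : UnitAddCircle => q • x) ν)
    {S : Finset ℕ} (hS : S.Nonempty) {B : Finset ℤ} (hB : (0 : ℤ) ∉ B)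
    (hSB : ∀ s ∈ S, 0 < s ∧ (∃ i j : ℕ, s = p ^ i * q ^ j) ∧ ∀ b ∈ B, b.natAbs * s ≤ n) :
    ∃ ν' : Measure UnitAddCircle, IsProbabilityMeasure ν' ∧
      MeasurePreserving (fun x : UnitAddCircle => p • x) ν' ν' ∧
      MeasurePreserving (fun x : UnitAddCircle => q • x) ν' ν' ∧
      JointErg (fun x : UnitAddCircle => p • x) (fun x : UnitAddCircle => q • x) ν' ∧
      ν'.map (fun x : UnitAddCircle => n • x) = ν ∧
      ∑ b ∈ B, ‖cf ν' b‖ ^ 2 ≤ B.card / S.card := by
  set ρ := lift n ν with hρ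
  have hρp : IsProbabilityMeasure ρ := lift_prob hn ν
  have hnR : (0 : ℝ) < n := by exact_mod_cast hn
  have hmn : Measurable fun x : UnitAddCircle => n • x := (continuous_nsmul n).measurable
  have hip := lift_inv hn h1 hp
  have hiq := lift_inv hn h2 hq
  -- the measures of the invariant sets
  have hk0 : ∀ E, Iv p q E → ∃ k : ℕ, ∀ᵐ x ∂ν, cnt n E x = k := fun E hE =>
    cnt_const hn h1 h2 hE.1 hE.2.1 hE.2.2 herg
  have hk : ∀ E, Iv p q E → ∃ k : ℕ, ρ.real E = k / n := by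
    intro E hE
    obtain ⟨k, hk⟩ := hk0 E hE
    refine ⟨k, ?_⟩
    have h3 := lift_inter hn hE.1 MeasurableSet.univ hk
    rw [preimage_univ, inter_univ, measure_univ, mul_one] at h3
    rw [measureReal_def, hρ, h3, ENNReal.toReal_mul, ENNReal.toReal_inv, ENNReal.toReal_natCast,
      ENNReal.toReal_natCast, inv_mul_eq_div]
  -- the additive function
  have hJadd : ∀ E F, Iv p q E → Iv p q F →
      (∑ b ∈ B, ∫ x in E ∩ F, ‖avg S b x‖ ^ 2 ∂ρ) + (∑ b ∈ B, ∫ x in E \ F, ‖avg S b x‖ ^ 2 ∂ρ) =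
        ∑ b ∈ B, ∫ x in E, ‖avg S b x‖ ^ 2 ∂ρ := by
    intro E F _ hF
    rw [← Finset.sum_add_distrib]
    exact Finset.sum_congr rfl fun b _ =>
      integral_inter_add_sdiff hF.1 (int_sq_avg S b ρ).integrableOn
  have hJu : (∑ b ∈ B, ∫ x in Set.univ, ‖avg S b x‖ ^ 2 ∂ρ) ≤ B.card / S.card := by
    have h3 : ∀ b ∈ B, ∫ x in Set.univ, ‖avg S b x‖ ^ 2 ∂ρ = 1 / S.card := by
      intro b hb
      rw [setIntegral_univ]
      exact sq_lift hn ν hS (by rintro rfl; exact hB hb) fun s hs =>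
        ⟨(hSB s hs).1, (hSB s hs).2.2 b hb⟩
    rw [Finset.sum_congr rfl h3, Finset.sum_const, nsmul_eq_mul, mul_one_div]
  obtain ⟨E, hE, hE0, hJE, hEe⟩ := exists_piece ρ hn hk
    (fun E => ∑ b ∈ B, ∫ x in E, ‖avg S b x‖ ^ 2 ∂ρ) hJadd hJu
  have hE0' : ρ E ≠ 0 := by
    intro h
    rw [measureReal_def, h] at hE0
    simp at hE0
  have hEt : ρ E ≠ ∞ := measure_ne_top ρ E
  set ν' : Measure UnitAddCircle := (ρ E)⁻¹ • ρ.restrict E with hν'
  have happ : ∀ A, MeasurableSet A → ν' A = (ρ E)⁻¹ * ρ (E ∩ A) := by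
    intro A hA
    rw [hν', Measure.smul_apply, Measure.restrict_apply hA, smul_eq_mul, inter_comm]
  have hprob : IsProbabilityMeasure ν' := by
    refine ⟨?_⟩
    rw [happ _ MeasurableSet.univ, inter_univ, ENNReal.inv_mul_cancel hE0' hEt]
  have hinv : ∀ {r : ℕ}, (fun x : UnitAddCircle => r • x) ⁻¹' E = E →
      MeasurePreserving (fun x : UnitAddCircle => r • x) ρ ρ →
      MeasurePreserving (fun x : UnitAddCircle => r • x) ν' ν' := by
    intro r hr hrρ
    refine ⟨hrρ.measurable, Measure.ext fun A hA => ?_⟩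
    rw [Measure.map_apply hrρ.measurable hA, happ _ (hrρ.measurable hA), happ _ hA]
    congr 1
    have : E ∩ (fun x : UnitAddCircle => r • x) ⁻¹' A =
        (fun x : UnitAddCircle => r • x) ⁻¹' (E ∩ A) := by rw [preimage_inter, hr]
    rw [this, hrρ.measure_preimage (hE.1.inter hA).nullMeasurableSet]
  have hp' := hinv hE.2.1 hip
  have hq' := hinv hE.2.2 hiq
  refine ⟨ν', hprob, hp', hq', ?_, ?_, ?_⟩
  · intro F hFm hF1 hF2
    rw [happ F hFm]
    rcases hEe F ⟨hFm, hF1, hF2⟩ with h3 | h3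
    · left
      have h4 : ρ (E ∩ F) = 0 := (measureReal_eq_zero_iff).1 h3
      rw [h4, mul_zero]
    · right
      have h4 : ρ (E ∩ F) = ρ E := (ENNReal.toReal_eq_toReal_iff' (measure_ne_top ρ _) hEt).1 h3
      rw [h4, ENNReal.inv_mul_cancel hE0' hEt]
  · refine Measure.ext fun A hA => ?_
    rw [Measure.map_apply hmn hA, happ _ (hmn hA)]
    obtain ⟨k, hk⟩ := hk0 E hE
    have h3 := lift_inter hn hE.1 MeasurableSet.univ hk
    rw [preimage_univ, inter_univ, measure_univ, mul_one] at h3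
    have h4 := lift_inter hn hE.1 hA hk
    rw [← hρ] at h3 h4
    rw [h4, ← mul_assoc (n : ℝ≥0∞)⁻¹, ← h3, ← mul_assoc, ENNReal.inv_mul_cancel hE0' hEt, one_mul]
  · have hpr : ∀ s ∈ S, MeasurePreserving (fun x : UnitAddCircle => s • x) ν' ν' := by
      intro s hs
      obtain ⟨i, j, rfl⟩ := (hSB s hs).2.1
      exact pres_mul hp' hq' i j
    calc ∑ b ∈ B, ‖cf ν' b‖ ^ 2 ≤ ∑ b ∈ B, ∫ x, ‖avg S b x‖ ^ 2 ∂ν' := by
          refine Finset.sum_le_sum fun b _ => ?_
          rw [cf_avg hS hpr]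
          exact sq_le_int (int_avg S b ν') (int_sq_avg S b ν')
      _ = (ρ.real E)⁻¹ * ∑ b ∈ B, ∫ x in E, ‖avg S b x‖ ^ 2 ∂ρ := by
          rw [Finset.mul_sum]
          refine Finset.sum_congr rfl fun b _ => ?_
          rw [hν', integral_smul_measure, ENNReal.toReal_inv, smul_eq_mul, measureReal_def]
      _ ≤ (ρ.real E)⁻¹ * (B.card / S.card * ρ.real E) :=
          mul_le_mul_of_nonneg_left hJE (inv_nonneg.2 hE0.le)
      _ = B.card / S.card := by
          field_simp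

end Pool.Agent.K3h68.IL
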