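import Pool.Agent.K3h68.IL.Fib

/-!
Ergodic lifts of an invariant measure under `x ↦ n x`, close to Lebesgue measure.
-/

set_option autoImplicit false

open MeasureTheory Filter Topology Set
open scoped ENNReal

namespace Pool.Agent.K3h68.IL

open Pool.Agent.R202.STP Pool.Agent.R202.TM

/-- the lift of an invariant measure is invariant -/
theorem lift_inv {n p : ℕ} (hn : 0 < n) (h : Nat.Coprime n p) {ν : Measure UnitAddCircle}
    [IsProbabilityMeasure ν] (hp : MeasurePreserving (fun x : UnitAddCircle => p • x) ν ν) :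
    MeasurePreserving (fun x : UnitAddCircle => p • x) (lift n ν) (lift n ν) := by
  have hm : Measurable fun x : UnitAddCircle => p • x := (continuous_nsmul p).measurable
  refine ⟨hm, ?_⟩
  have := lift_prob hn ν
  have : IsProbabilityMeasure ((lift n ν).map fun x : UnitAddCircle => p • x) :=
    Measure.isProbabilityMeasure_map hm.aemeasurable
  refine ext_cf fun m _ => ?_
  rw [cf_map, cf_lift hn, cf_lift hn]
  have hnZ : (n : ℤ) ≠ 0 := by exact_mod_cast hn.ne'
  have hco : IsCoprime (n : ℤ) (p : ℤ) := Nat.isCoprime_iff_coprime.2 h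
  by_cases hd : (n : ℤ) ∣ m
  · obtain ⟨l, rfl⟩ := hd
    rw [if_pos (Dvd.intro l rfl), if_pos (by rw [mul_assoc]; exact Dvd.intro _ rfl), mul_assoc,
      Int.mul_ediv_cancel_left _ hnZ, Int.mul_ediv_cancel_left _ hnZ, cf_mul hp]
  · rw [if_neg hd, if_neg fun h1 => hd (hco.dvd_of_dvd_mul_right h1)]

lemma pres_pow {p : ℕ} {μ : Measure UnitAddCircle}
    (hp : MeasurePreserving (fun x : UnitAddCircle => p • x) μ μ) (i : ℕ) :
    MeasurePreserving (fun x : UnitAddCircle => (p ^ i) • x) μ μ := by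
  induction i with
  | zero =>
    have : (fun x : UnitAddCircle => (p ^ 0) • x) = id := by
      funext x
      simp
    rw [this]
    exact MeasurePreserving.id μ
  | succ i ih =>
    have : (fun x : UnitAddCircle => (p ^ (i + 1)) • x) =
        (fun x : UnitAddCircle => p • x) ∘ fun x : UnitAddCircle => (p ^ i) • x := by
      funext x
      show (p ^ (i + 1)) • x = p • ((p ^ i) • x)
      rw [← mul_smul, pow_succ']
    rw [this]
    exact hp.comp ih

lemma pres_mul {p q : ℕ} {μ : Measure UnitAddCircle}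
    (hp : MeasurePreserving (fun x : UnitAddCircle => p • x) μ μ)
    (hq : MeasurePreserving (fun x : UnitAddCircle => q • x) μ μ) (i j : ℕ) :
    MeasurePreserving (fun x : UnitAddCircle => (p ^ i * q ^ j) • x) μ μ := by
  have : (fun x : UnitAddCircle => (p ^ i * q ^ j) • x) =
      (fun x : UnitAddCircle => (p ^ i) • x) ∘ fun x : UnitAddCircle => (q ^ j) • x := by
    funext x
    show (p ^ i * q ^ j) • x = (p ^ i) • ((q ^ j) • x)
    rw [mul_smul]
  rw [this]
  exact (pres_pow hp i).comp (pres_pow hq j)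

/-- the average of the character `b` over the multiples by the elements of `S` -/
noncomputable def avg (S : Finset ℕ) (b : ℤ) (x : UnitAddCircle) : ℂ :=
  (∑ s ∈ S, (fourier (b * s) x : ℂ)) / S.card

lemma cont_avg (S : Finset ℕ) (b : ℤ) : Continuous (avg S b) := by
  have h1 : Continuous fun x : UnitAddCircle => ∑ s ∈ S, (fourier (b * (s : ℤ)) x : ℂ) :=
    continuous_finsetSum _ fun s _ => (fourier (b * (s : ℤ))).continuous
  exact h1.div_const _

lemma norm_avg (S : Finset ℕ) (b : ℤ) (x : UnitAddCircle) : ‖avg S b x‖ ≤ 1 := by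
  unfold avg
  rw [norm_div, Complex.norm_natCast]
  refine div_le_one_of_le₀ ?_ (Nat.cast_nonneg _)
  refine (norm_sum_le _ _).trans ?_
  rw [Finset.sum_congr rfl fun (s : ℕ) _ => norm_fourier (b * (s : ℤ)) x]
  simp

lemma int_sq_avg (S : Finset ℕ) (b : ℤ) (μ : Measure UnitAddCircle) [IsFiniteMeasure μ] :
    Integrable (fun x => ‖avg S b x‖ ^ 2) μ :=
  Integrable.of_bound ((cont_avg S b).norm.pow 2).aestronglyMeasurable 1
    (Eventually.of_forall fun x => by
      rw [Real.norm_of_nonneg (sq_nonneg _)]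
      exact pow_le_one₀ (norm_nonneg _) (norm_avg S b x))

lemma int_avg (S : Finset ℕ) (b : ℤ) (μ : Measure UnitAddCircle) [IsFiniteMeasure μ] :
    Integrable (avg S b) μ :=
  Integrable.of_bound (cont_avg S b).aestronglyMeasurable 1
    (Eventually.of_forall fun x => norm_avg S b x)

lemma int_fourier (μ : Measure UnitAddCircle) [IsFiniteMeasure μ] (m : ℤ) :
    Integrable (fun x : UnitAddCircle => (fourier m x : ℂ)) μ :=
  Integrable.of_bound (fourier m).continuous.aestronglyMeasurable 1
    (Eventually.of_forall fun x => (norm_fourier m x).le)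

lemma cf_avg {S : Finset ℕ} (hS : S.Nonempty) {μ : Measure UnitAddCircle} [IsProbabilityMeasure μ]
    (h : ∀ s ∈ S, MeasurePreserving (fun x : UnitAddCircle => s • x) μ μ) (b : ℤ) :
    cf μ b = ∫ x, avg S b x ∂μ := by
  unfold avg
  rw [integral_div, integral_finsetSum _ fun s _ => int_fourier μ _]
  have h1 : ∀ s ∈ S, ∫ x, (fourier (b * s) x : ℂ) ∂μ = cf μ b := fun s hs => cf_mul (h s hs) b
  rw [Finset.sum_congr rfl h1, Finset.sum_const, nsmul_eq_mul, mul_div_assoc, mul_div_cancel₀]
  exact_mod_cast (Finset.card_pos.2 hS).ne'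

lemma sq_le_int {μ : Measure UnitAddCircle} [IsProbabilityMeasure μ] {g : UnitAddCircle → ℂ}
    (hg : Integrable g μ) (hg2 : Integrable (fun x => ‖g x‖ ^ 2) μ) :
    ‖∫ x, g x ∂μ‖ ^ 2 ≤ ∫ x, ‖g x‖ ^ 2 ∂μ := by
  have h1 : ‖∫ x, g x ∂μ‖ ≤ ∫ x, ‖g x‖ ∂μ := norm_integral_le_integral_norm _
  have h2 : (∫ x, ‖g x‖ ∂μ) ^ 2 ≤ ∫ x, ‖g x‖ ^ 2 ∂μ := by
    set m := ∫ x, ‖g x‖ ∂μ with hm
    have h3 : 0 ≤ ∫ x, (‖g x‖ ^ 2 - 2 * m * ‖g x‖ + m ^ 2) ∂μ := by
      refine integral_nonneg fun x => ?_
      show 0 ≤ ‖g x‖ ^ 2 - 2 * m * ‖g x‖ + m ^ 2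
      nlinarith [sq_nonneg (‖g x‖ - m)]
    have i1 : Integrable (fun x => ‖g x‖ ^ 2 - 2 * m * ‖g x‖) μ := hg2.sub (hg.norm.const_mul _)
    rw [integral_add i1 (integrable_const _),
      integral_sub hg2 (hg.norm.const_mul _), integral_const_mul, integral_const, probReal_univ,
      one_smul, ← hm] at h3
    nlinarith
  exact (pow_le_pow_left₀ (norm_nonneg _) h1 2).trans h2

lemma sq_avg (S : Finset ℕ) (b : ℤ) (x : UnitAddCircle) :
    ((‖avg S b x‖ ^ 2 : ℝ) : ℂ) =
      (∑ s ∈ S, ∑ t ∈ S, (fourier (b * ((s : ℤ) - t)) x : ℂ)) / ((S.card : ℂ) * S.card) := by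
  have e1 : ((‖avg S b x‖ ^ 2 : ℝ) : ℂ) = avg S b x * (starRingEnd ℂ) (avg S b x) := by
    rw [Complex.mul_conj, Complex.normSq_eq_norm_sq]
  rw [e1]
  unfold avg
  rw [map_div₀, Complex.conj_natCast, map_sum, div_mul_div_comm, Finset.sum_mul_sum]
  congr 1
  refine Finset.sum_congr rfl fun n _ => Finset.sum_congr rfl fun m _ => ?_
  rw [← fourier_neg, ← fourier_add]
  congr 2
  ring

/-- the mean square of the averages for the lift -/
theorem sq_lift {n : ℕ} (hn : 0 < n) (ν : Measure UnitAddCircle) [IsProbabilityMeasure ν]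
    {S : Finset ℕ} (hS : S.Nonempty) {b : ℤ} (hb : b ≠ 0)
    (h : ∀ s ∈ S, 0 < s ∧ b.natAbs * s ≤ n) :
    ∫ x, ‖avg S b x‖ ^ 2 ∂(lift n ν) = 1 / S.card := by
  have := lift_prob hn ν
  have hc : (S.card : ℂ) ≠ 0 := by exact_mod_cast (Finset.card_pos.2 hS).ne'
  have h1 : ((∫ x, ‖avg S b x‖ ^ 2 ∂(lift n ν) : ℝ) : ℂ) = ((1 / S.card : ℝ) : ℂ) := by
    rw [← integral_complex_ofReal]
    simp_rw [sq_avg]
    rw [integral_div, integral_finsetSum _ fun s _ => integrable_finsetSum _ fun t _ =>
      int_fourier _ _]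
    have h2 : ∀ s ∈ S, ∫ x, ∑ t ∈ S, (fourier (b * ((s : ℤ) - t)) x : ℂ) ∂(lift n ν) = 1 := by
      intro s hs
      rw [integral_finsetSum _ fun t _ => int_fourier _ _, Finset.sum_eq_single_of_mem s hs]
      · rw [sub_self, mul_zero]
        exact cf_zero (lift n ν)
      · intro t ht hts
        have h3 : cf (lift n ν) (b * ((s : ℤ) - t)) = 0 := by
          rw [cf_lift hn, if_neg]
          intro hd
          have h4 : b * ((s : ℤ) - t) ≠ 0 := by
            refine mul_ne_zero hb ?_
            intro h5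
            apply hts
            omega
          have h5 := Int.natAbs_dvd_natAbs.2 hd
          rw [Int.natAbs_natCast, Int.natAbs_mul] at h5
          have h6 : 0 < b.natAbs * ((s : ℤ) - t).natAbs := by
            rw [← Int.natAbs_mul]
            exact Int.natAbs_pos.2 h4
          have h7 := Nat.le_of_dvd h6 h5
          have h8 : ((s : ℤ) - t).natAbs < max s t := by
            have := (h s hs).1
            have := (h t ht).1
            omega
          have h9 : b.natAbs * max s t ≤ n := by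
            rcases le_total s t with h' | h'
            · rw [max_eq_right h']
              exact (h t ht).2
            · rw [max_eq_left h']
              exact (h s hs).2
          have h10 : b.natAbs * ((s : ℤ) - t).natAbs < b.natAbs * max s t :=
            Nat.mul_lt_mul_of_pos_left h8 (Int.natAbs_pos.2 hb)
          omega
        exact h3
    rw [Finset.sum_congr rfl h2, Finset.sum_const, nsmul_eq_mul, mul_one]
    push_cast
    field_simp
  exact_mod_cast h1

end Pool.Agent.K3h68.IL
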