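import Pool.Agent.K3h68.IL.Erg
import Pool.Agent.K3h68.IL.Lift

/-!
The ergodic decomposition for the joint action of `x ↦ p x` and `x ↦ q x` on the circle.
-/

set_option autoImplicit false

open MeasureTheory Filter Topology Set ProbabilityTheory
open scoped ENNReal InnerProductSpace

namespace Pool.Agent.K3h68.IL

open Pool.Agent.R202.TM Pool.Agent.R202.STP

section gen

variable {X : Type*} [mX : MeasurableSpace X] [StandardBorelSpace X]

/-- the conditional measures -/
noncomputable def ker (S T : X → X) (μ : Measure X) [IsFiniteMeasure μ] : Kernel X X :=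
  (condExpKernel μ (sig S T μ)).comap id (measurable_id'' (sig_le S T μ))

instance ker_markov (S T : X → X) (μ : Measure X) [IsFiniteMeasure μ] :
    IsMarkovKernel (ker S T μ) := by
  unfold ker
  infer_instance

theorem ker_comp (S T : X → X) (μ : Measure X) [IsFiniteMeasure μ] : ker S T μ ∘ₘ μ = μ := by
  ext s hs
  rw [Measure.bind_apply hs (Kernel.aemeasurable _)]
  have h := congrArg (fun m => m s) (condExpKernel_comp_trim (μ := μ) (sig_le S T μ))
  rw [Measure.bind_apply hs (Kernel.aemeasurable _)] at h
  rw [lintegral_trim (sig_le S T μ) (measurable_condExpKernel hs)] at h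
  exact h

theorem ker_ae (S T : X → X) (μ : Measure X) [IsFiniteMeasure μ] {p : X → Prop}
    (h : ∀ᵐ x ∂μ, p x) : ∀ᵐ z ∂μ, ∀ᵐ x ∂(ker S T μ z), p x := by
  refine Measure.ae_ae_of_ae_comp ?_
  rw [ker_comp]
  exact h

theorem ker_lintegral (S T : X → X) (μ : Measure X) [IsFiniteMeasure μ] {F : X → ℝ≥0∞}
    (hF : Measurable F) : ∫⁻ z, ∫⁻ x, F x ∂(ker S T μ z) ∂μ = ∫⁻ x, F x ∂μ := by
  conv_rhs => rw [← ker_comp S T μ]
  rw [Measure.lintegral_bind (Kernel.aemeasurable _) hF.aemeasurable]

theorem ker_integral (S T : X → X) (μ : Measure X) [IsFiniteMeasure μ] {f : X → ℂ}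
    (hf : Integrable f μ) : μ[f | sig S T μ] =ᵐ[μ] fun z => ∫ x, f x ∂(ker S T μ z) :=
  condExp_ae_eq_integral_condExpKernel (sig_le S T μ) hf

theorem ker_integral_real (S T : X → X) (μ : Measure X) [IsFiniteMeasure μ] {f : X → ℝ}
    (hf : Integrable f μ) : μ[f | sig S T μ] =ᵐ[μ] fun z => ∫ x, f x ∂(ker S T μ z) :=
  condExp_ae_eq_integral_condExpKernel (sig_le S T μ) hf

theorem ker_const (S T : X → X) (μ : Measure X) [IsProbabilityMeasure μ] {u : X → ℝ}
    (hu : Measurable[sig S T μ] u) {C : ℝ} (hC : ∀ x, |u x| ≤ C) :
    ∀ᵐ z ∂μ, ∀ᵐ x ∂(ker S T μ z), u x = u z := by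
  have hum : Measurable u := hu.mono (sig_le S T μ) le_rfl
  have hui : Integrable u μ := Integrable.of_bound hum.aestronglyMeasurable C
    (Filter.Eventually.of_forall fun x => hC x)
  have hu2m : Measurable (fun x => u x * u x) := hum.mul hum
  have hC0 : ∀ x : X, |u x * u x| ≤ C * C := fun x => by
    rw [abs_mul]
    exact mul_le_mul (hC x) (hC x) (abs_nonneg _) ((abs_nonneg _).trans (hC x))
  have hu2i : Integrable (fun x => u x * u x) μ := Integrable.of_bound hu2m.aestronglyMeasurable
    (C * C) (Filter.Eventually.of_forall fun x => hC0 x)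
  have e1 : μ[u | sig S T μ] = u :=
    condExp_of_stronglyMeasurable (sig_le S T μ) hu.stronglyMeasurable hui
  have e2 : μ[(fun x => u x * u x) | sig S T μ] = fun x => u x * u x :=
    condExp_of_stronglyMeasurable (sig_le S T μ) (hu.mul hu).stronglyMeasurable hu2i
  have h1 := ker_integral_real S T μ hui
  have h2 := ker_integral_real S T μ hu2i
  rw [e1] at h1
  rw [e2] at h2
  filter_upwards [h1, h2] with z hz1 hz2
  have hi1 : Integrable u (ker S T μ z) := Integrable.of_bound hum.aestronglyMeasurable C
    (Filter.Eventually.of_forall fun x => hC x)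
  have hi2 : Integrable (fun x => u x * u x) (ker S T μ z) :=
    Integrable.of_bound hu2m.aestronglyMeasurable (C * C)
      (Filter.Eventually.of_forall fun x => hC0 x)
  have hexp : (fun x => (u x - u z) ^ 2) = fun x => u x * u x - 2 * u z * u x + u z * u z := by
    funext x
    ring
  have hs : Integrable (fun x => u x * u x - 2 * u z * u x) (ker S T μ z) :=
    hi2.sub (hi1.const_mul _)
  have h3 : ∫ x, (u x - u z) ^ 2 ∂(ker S T μ z) = 0 := by
    rw [hexp, integral_add hs (integrable_const _), integral_sub hi2 (hi1.const_mul _),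
      integral_const_mul, ← hz1, ← hz2, integral_const]
    simp
    ring
  have hint : Integrable (fun x => (u x - u z) ^ 2) (ker S T μ z) := by
    rw [hexp]
    exact hs.add (integrable_const _)
  have h4 := (integral_eq_zero_iff_of_nonneg (fun y => sq_nonneg _) hint).1 h3
  filter_upwards [h4] with y hy
  have h5 : (u y - u z) ^ 2 = 0 := hy
  have h6 := pow_eq_zero_iff (two_ne_zero) |>.1 h5
  linarith

end gen

section circ

variable {p q : ℕ} {μ : Measure UnitAddCircle} [IsProbabilityMeasure μ]

/-- the conditional measures for the joint action -/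
noncomputable abbrev kz (p q : ℕ) (μ : Measure UnitAddCircle) [IsProbabilityMeasure μ]
    (z : UnitAddCircle) : Measure UnitAddCircle :=
  ker (fun x : UnitAddCircle => p • x) (fun x : UnitAddCircle => q • x) μ z

lemma kz_cf_ae (m : ℤ) : μ[(fun x : UnitAddCircle => (fourier m x : ℂ)) |
    sig (fun x : UnitAddCircle => p • x) (fun x : UnitAddCircle => q • x) μ] =ᵐ[μ]
    fun z => cf (kz p q μ z) m := ker_integral _ _ μ (int_fourier μ m)

lemma norm_cf_le (ν : Measure UnitAddCircle) [IsProbabilityMeasure ν] (m : ℤ) : ‖cf ν m‖ ≤ 1 := by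
  unfold cf
  refine (norm_integral_le_integral_norm _).trans ?_
  rw [integral_congr_ae (Eventually.of_forall fun x => norm_fourier m x), integral_const]
  simp

lemma meas_cf (m : ℤ) : StronglyMeasurable[sig (fun x : UnitAddCircle => p • x)
    (fun x : UnitAddCircle => q • x) μ] fun z => cf (kz p q μ z) m := by
  have h1 : StronglyMeasurable fun x : UnitAddCircle => (fourier m x : ℂ) :=
    (fourier m).continuous.stronglyMeasurable
  exact h1.integral_condExpKernel

/-- the conditional measures are invariant -/
theorem kz_inv (hp : MeasurePreserving (fun x : UnitAddCircle => p • x) μ μ)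
    (hq : MeasurePreserving (fun x : UnitAddCircle => q • x) μ μ) :
    ∀ᵐ z ∂μ, MeasurePreserving (fun x : UnitAddCircle => p • x) (kz p q μ z) (kz p q μ z) ∧
      MeasurePreserving (fun x : UnitAddCircle => q • x) (kz p q μ z) (kz p q μ z) := by
  have key : ∀ r : ℕ, MeasurePreserving (fun x : UnitAddCircle => r • x) μ μ →
      (∀ A, MeasurableSet[sig (fun x : UnitAddCircle => p • x) (fun x : UnitAddCircle => q • x) μ] A
        → (fun x : UnitAddCircle => r • x) ⁻¹' A =ᵐ[μ] A) →
      ∀ᵐ z ∂μ, MeasurePreserving (fun x : UnitAddCircle => r • x) (kz p q μ z) (kz p q μ z) := by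
    intro r hr hrA
    have h1 : ∀ᵐ z ∂μ, ∀ m : ℤ, cf (kz p q μ z) (m * r) = cf (kz p q μ z) m := by
      rw [ae_all_iff]
      intro m
      have h2 := condExp_comp hr hrA (int_fourier μ m)
      have h3 : (fun x : UnitAddCircle => (fourier m (r • x) : ℂ)) =
          fun x : UnitAddCircle => (fourier (m * r) x : ℂ) := by
        funext x
        rw [fourier_apply, fourier_apply, mul_smul, natCast_zsmul]
      rw [h3] at h2
      filter_upwards [h2, kz_cf_ae (p := p) (q := q) (μ := μ) m,
        kz_cf_ae (p := p) (q := q) (μ := μ) (m * r)] with z a b c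
      rw [← b, ← c, a]
    filter_upwards [h1] with z hz
    refine ⟨hr.measurable, ?_⟩
    have : IsProbabilityMeasure ((kz p q μ z).map fun x : UnitAddCircle => r • x) :=
      Measure.isProbabilityMeasure_map hr.measurable.aemeasurable
    refine ext_cf fun m _ => ?_
    rw [cf_map, hz]
  filter_upwards [key p hp fun A hA => hA.2.1, key q hq fun A hA => hA.2.2] with z h1 h2
  exact ⟨h1, h2⟩

/-- a criterion for ergodicity -/
theorem erg_of_box {ν : Measure UnitAddCircle} [IsProbabilityMeasure ν]
    (hp : MeasurePreserving (fun x : UnitAddCircle => p • x) ν ν)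
    (hq : MeasurePreserving (fun x : UnitAddCircle => q • x) ν ν)
    (h : ∀ m : ℤ, ∀ ε : ℝ, 0 < ε → ∃ N M : ℕ, 0 < N ∧ 0 < M ∧
      ∫⁻ x, ‖box (fun x : UnitAddCircle => p • x) (fun x : UnitAddCircle => q • x)
        (fun x => (fourier m x : ℂ)) N M x - cf ν m‖ₑ ^ 2 ∂ν < ENNReal.ofReal ε) :
    JointErg (fun x : UnitAddCircle => p • x) (fun x : UnitAddCircle => q • x) ν := by
  intro A hA hpA hqA
  by_cases hA0 : ν A = 0
  · exact Or.inl hA0
  right
  have hAt : ν A ≠ ∞ := measure_ne_top ν A
  set ν' : Measure UnitAddCircle := (ν A)⁻¹ • ν.restrict A with hν'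
  have hprob : IsProbabilityMeasure ν' := by
    refine ⟨?_⟩
    rw [hν', Measure.smul_apply, Measure.restrict_apply_univ, smul_eq_mul,
      ENNReal.inv_mul_cancel hA0 hAt]
  have key : ∀ m : ℤ, ∫ x in A, (fourier m x : ℂ) ∂ν = ν.real A * cf ν m := by
    intro m
    have hb : ∀ ε : ℝ, 0 < ε → ‖(∫ x in A, (fourier m x : ℂ) ∂ν) - ν.real A * cf ν m‖ ≤ ε := by
      intro ε hε
      obtain ⟨N, M, hN, hM, hNM⟩ := h m (ε ^ 2) (by positivity)
      set g : UnitAddCircle → ℂ := box (fun x : UnitAddCircle => p • x)
        (fun x : UnitAddCircle => q • x) (fun x => (fourier m x : ℂ)) N M with hg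
      have hit : ∀ i j : ℕ, ∀ x : UnitAddCircle, (fun x : UnitAddCircle => p • x)^[i]
          ((fun x : UnitAddCircle => q • x)^[j] x) = (p ^ i * q ^ j) • x := by
        intro i j x
        have h1 : ∀ (r k : ℕ) (y : UnitAddCircle), (fun x : UnitAddCircle => r • x)^[k] y =
            (r ^ k) • y := by
          intro r k
          induction k with
          | zero => intro y; simp
          | succ k ih =>
            intro y
            rw [Function.iterate_succ_apply', ih, pow_succ', mul_smul]
        rw [h1, h1, mul_smul]
      have hcont : Continuous g := by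
        rw [hg]
        unfold box
        simp only [hit]
        refine continuous_const.mul (continuous_finsetSum _ fun j _ => continuous_const.mul
          (continuous_finsetSum _ fun i _ => ?_))
        exact (fourier m).continuous.comp (continuous_nsmul _)
      have hgb : ∀ x, ‖g x‖ ≤ 1 := by
        intro x
        rw [hg]
        unfold box
        rw [norm_mul, norm_inv, Complex.norm_natCast, inv_mul_le_iff₀ (by exact_mod_cast hM),
          mul_one]
        refine (norm_sum_le _ _).trans ?_
        calc ∑ j ∈ Finset.range M, ‖(N : ℂ)⁻¹ * ∑ i ∈ Finset.range N, (fourier m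
              ((fun x : UnitAddCircle => p • x)^[i] ((fun x : UnitAddCircle => q • x)^[j] x)) : ℂ)‖
            ≤ ∑ _j ∈ Finset.range M, (1 : ℝ) := by
              refine Finset.sum_le_sum fun j _ => ?_
              rw [norm_mul, norm_inv, Complex.norm_natCast, inv_mul_le_iff₀ (by exact_mod_cast hN),
                mul_one]
              refine (norm_sum_le _ _).trans ?_
              rw [Finset.sum_congr rfl fun i _ => norm_fourier m _]
              simp
          _ = M := by simp
      have hgi : ∀ ρ : Measure UnitAddCircle, IsFiniteMeasure ρ → Integrable g ρ := fun ρ _ =>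
        Integrable.of_bound hcont.aestronglyMeasurable 1 (Eventually.of_forall hgb)
      have h1 : ∫ x in A, g x ∂ν = ∫ x in A, (fourier m x : ℂ) ∂ν := by
        rw [hg]
        unfold box
        simp only [hit]
        rw [integral_const_mul, integral_finsetSum]
        · have h2 : ∀ j ∈ Finset.range M, ∫ x in A, (N : ℂ)⁻¹ * ∑ i ∈ Finset.range N,
              (fourier m ((p ^ i * q ^ j) • x) : ℂ) ∂ν = ∫ x in A, (fourier m x : ℂ) ∂ν := by
            intro j _
            rw [integral_const_mul, integral_finsetSum]
            · have h3 : ∀ i ∈ Finset.range N, ∫ x in A, (fourier m ((p ^ i * q ^ j) • x) : ℂ) ∂ν =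
                  ∫ x in A, (fourier m x : ℂ) ∂ν := by
                intro i _
                have h4 := pres_mul hp hq i j
                refine setIntegral_comp' (f := fun x => (fourier m x : ℂ)) h4 hA ?_
                  (fourier m).continuous.aestronglyMeasurable
                have h5 : (fun x : UnitAddCircle => (p ^ i * q ^ j) • x) ⁻¹' A = A := by
                  ext x
                  have hpA' : ∀ y : UnitAddCircle, p • y ∈ A ↔ y ∈ A := fun y => by
                    conv_rhs => rw [← hpA]
                    rfl
                  have hqA' : ∀ y : UnitAddCircle, q • y ∈ A ↔ y ∈ A := fun y => by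
                    conv_rhs => rw [← hqA]
                    rfl
                  have h6 : ∀ k : ℕ, ∀ y : UnitAddCircle, (p ^ k) • y ∈ A ↔ y ∈ A := by
                    intro k
                    induction k with
                    | zero => intro y; simp
                    | succ k ih => intro y; rw [pow_succ', mul_smul, hpA', ih]
                  have h7 : ∀ k : ℕ, ∀ y : UnitAddCircle, (q ^ k) • y ∈ A ↔ y ∈ A := by
                    intro k
                    induction k with
                    | zero => intro y; simp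
                    | succ k ih => intro y; rw [pow_succ', mul_smul, hqA', ih]
                  show (p ^ i * q ^ j) • x ∈ A ↔ x ∈ A
                  rw [mul_smul, h6, h7]
                rw [h5]
              rw [Finset.sum_congr rfl h3, Finset.sum_const, Finset.card_range, nsmul_eq_mul,
                ← mul_assoc, inv_mul_cancel₀ (by exact_mod_cast hN.ne'), one_mul]
            · intro i _
              exact Integrable.of_bound ((fourier m).continuous.comp
                (continuous_nsmul _)).aestronglyMeasurable 1
                (Eventually.of_forall fun x => (norm_fourier m _).le)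
          rw [Finset.sum_congr rfl h2, Finset.sum_const, Finset.card_range, nsmul_eq_mul,
            ← mul_assoc, inv_mul_cancel₀ (by exact_mod_cast hM.ne'), one_mul]
        · intro j _
          refine (integrable_finsetSum _ fun i _ => ?_).const_mul _
          exact Integrable.of_bound ((fourier m).continuous.comp
            (continuous_nsmul _)).aestronglyMeasurable 1
            (Eventually.of_forall fun x => (norm_fourier m _).le)
      have hcc : Integrable (fun x => g x - cf ν m) ν := (hgi ν inferInstance).sub (integrable_const _)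
      have hcc2 : Integrable (fun x => ‖g x - cf ν m‖ ^ 2) ν := by
        refine Integrable.of_bound ((hcont.sub continuous_const).norm.pow 2).aestronglyMeasurable 4
          (Eventually.of_forall fun x => ?_)
        rw [Real.norm_of_nonneg (sq_nonneg _)]
        have := (norm_sub_le (g x) (cf ν m)).trans (add_le_add (hgb x) (norm_cf_le ν m))
        nlinarith [norm_nonneg (g x - cf ν m)]
      calc ‖(∫ x in A, (fourier m x : ℂ) ∂ν) - ν.real A * cf ν m‖
          = ‖∫ x in A, (g x - cf ν m) ∂ν‖ := by
            rw [← h1, integral_sub (hgi _ inferInstance) (integrable_const _), setIntegral_const]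
            rfl
        _ ≤ ∫ x in A, ‖g x - cf ν m‖ ∂ν := norm_integral_le_integral_norm _
        _ ≤ ∫ x, ‖g x - cf ν m‖ ∂ν :=
            setIntegral_le_integral hcc.norm (Eventually.of_forall fun x => norm_nonneg _)
        _ ≤ ε := by
            have h2 : ∫ x, ‖g x - cf ν m‖ ^ 2 ∂ν < ε ^ 2 := by
              have h3 : ENNReal.ofReal (∫ x, ‖g x - cf ν m‖ ^ 2 ∂ν) =
                  ∫⁻ x, ‖g x - cf ν m‖ₑ ^ 2 ∂ν := by
                rw [ofReal_integral_eq_lintegral_ofReal hcc2 (Eventually.of_forall fun x =>
                  sq_nonneg _)]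
                refine lintegral_congr fun x => ?_
                rw [ENNReal.ofReal_pow (norm_nonneg _), ofReal_norm]
              rw [← h3] at hNM
              exact (ENNReal.ofReal_lt_ofReal_iff (by positivity)).1 hNM
            have h3 := sq_le_int (μ := ν) (g := fun x => ((‖g x - cf ν m‖ : ℝ) : ℂ))
              (hcc.norm.ofReal) (by simpa using hcc2)
            rw [integral_complex_ofReal] at h3
            simp only [Complex.norm_real, Real.norm_eq_abs, sq_abs] at h3
            have h4 : 0 ≤ ∫ x, ‖g x - cf ν m‖ ∂ν := integral_nonneg fun x => norm_nonneg _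
            exact le_of_sq_le_sq (h3.trans h2.le) hε.le
    have h0 : ‖(∫ x in A, (fourier m x : ℂ) ∂ν) - ν.real A * cf ν m‖ ≤ 0 :=
      le_of_forall_pos_le_add fun ε hε => by
        rw [zero_add]
        exact hb ε hε
    exact sub_eq_zero.1 (norm_le_zero_iff.1 h0)
  have heq : ν' = ν := by
    refine ext_cf fun m _ => ?_
    have h1 : cf ν' m = (ν.real A : ℂ)⁻¹ * ∫ x in A, (fourier m x : ℂ) ∂ν := by
      unfold cf
      rw [hν', integral_smul_measure, ENNReal.toReal_inv, Complex.real_smul]
      push_cast
      rfl
    rw [h1, key]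
    have h2 : (ν.real A : ℂ) ≠ 0 := by
      have h3 : ν.real A ≠ 0 := by
        rw [measureReal_def]
        exact ENNReal.toReal_ne_zero.2 ⟨hA0, hAt⟩
      exact_mod_cast h3
    rw [← mul_assoc, inv_mul_cancel₀ h2, one_mul]
  have h1 : ν Aᶜ = 0 := by
    conv_lhs => rw [← heq]
    rw [hν', Measure.smul_apply, Measure.restrict_apply hA.compl, compl_inter_self, measure_empty,
      smul_zero]
  exact (prob_compl_eq_zero_iff hA).1 h1

end circ

end Pool.Agent.K3h68.IL
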