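import Pool.Agent.K3h68.IL.Img
import Pool.Agent.R202.TM

/-!
The sigma-algebra of the almost invariant sets of two commuting maps and the mean ergodic theorem.
-/

set_option autoImplicit false

open MeasureTheory Filter Topology Set ProbabilityTheory
open scoped ENNReal InnerProductSpace

namespace Pool.Agent.K3h68.IL

open Pool.Agent.R202.TM

section gen

variable {X : Type*} [mX : MeasurableSpace X]

/-- the sigma-algebra of the almost invariant sets -/
@[reducible] def sig (S T : X → X) (μ : Measure X) : MeasurableSpace X where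
  MeasurableSet' A := MeasurableSet[mX] A ∧ S ⁻¹' A =ᵐ[μ] A ∧ T ⁻¹' A =ᵐ[μ] A
  measurableSet_empty := ⟨MeasurableSet.empty, by rw [preimage_empty], by rw [preimage_empty]⟩
  measurableSet_compl A h := ⟨h.1.compl, h.2.1.compl, h.2.2.compl⟩
  measurableSet_iUnion f h := ⟨MeasurableSet.iUnion fun i => (h i).1,
    by rw [preimage_iUnion]; exact Filter.EventuallyEq.countable_iUnion fun i => (h i).2.1,
    by rw [preimage_iUnion]; exact Filter.EventuallyEq.countable_iUnion fun i => (h i).2.2⟩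

lemma sig_le (S T : X → X) (μ : Measure X) : sig S T μ ≤ mX := fun _ h => h.1

/-- an almost invariant function is measurable for it -/
lemma meas_sig {S T : X → X} {μ : Measure X} {u : X → ℂ} (hu : Measurable u)
    (h1 : ∀ᵐ x ∂μ, u (S x) = u x) (h2 : ∀ᵐ x ∂μ, u (T x) = u x) : Measurable[sig S T μ] u := by
  intro B hB
  refine ⟨hu hB, ?_, ?_⟩
  · filter_upwards [h1] with x hx
    refine propext ?_
    show u (S x) ∈ B ↔ u x ∈ B
    rw [hx]
  · filter_upwards [h2] with x hx
    refine propext ?_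
    show u (T x) ∈ B ↔ u x ∈ B
    rw [hx]

/-- integrals over almost invariant sets -/
lemma setIntegral_comp' {S : X → X} {μ : Measure X} (hS : MeasurePreserving S μ μ) {A : Set X}
    (hA : MeasurableSet A) (hSA : S ⁻¹' A =ᵐ[μ] A) {f : X → ℂ} (hf : AEStronglyMeasurable f μ) :
    ∫ x in A, f (S x) ∂μ = ∫ x in A, f x ∂μ := by
  rw [← setIntegral_congr_set hSA, ← integral_indicator hA, ← integral_indicator (hS.measurable hA)]
  have h1 : ∫ x, A.indicator f x ∂μ = ∫ x, A.indicator f (S x) ∂μ := by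
    conv_lhs => rw [← hS.map_eq]
    rw [integral_map hS.measurable.aemeasurable]
    rw [hS.map_eq]
    exact hf.indicator hA
  rw [h1]
  rfl

/-- the conditional expectation is invariant -/
theorem condExp_comp {S T : X → X} {μ : Measure X} [IsProbabilityMeasure μ] {R : X → X}
    (hR : MeasurePreserving R μ μ) (hRA : ∀ A, MeasurableSet[sig S T μ] A → R ⁻¹' A =ᵐ[μ] A)
    {f : X → ℂ} (hf : Integrable f μ) :
    μ[(fun x => f (R x)) | sig S T μ] =ᵐ[μ] μ[f | sig S T μ] := by
  have hfg : Integrable (fun x => f (R x)) μ := hR.integrable_comp_of_integrable hf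
  refine (ae_eq_condExp_of_forall_setIntegral_eq (sig_le S T μ) hfg
    (fun s _ _ => integrable_condExp.integrableOn) (fun s hs _ => ?_)
    stronglyMeasurable_condExp.aestronglyMeasurable).symm
  rw [setIntegral_condExp (sig_le S T μ) hf hs]
  exact (setIntegral_comp' hR hs.1 (hRA s hs) hf.aestronglyMeasurable).symm

/-- averages over boxes -/
noncomputable def box (S T : X → X) (f : X → ℂ) (N M : ℕ) (x : X) : ℂ :=
  (M : ℂ)⁻¹ * ∑ j ∈ Finset.range M, (N : ℂ)⁻¹ * ∑ i ∈ Finset.range N, f (S^[i] (T^[j] x))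

/-- **The mean ergodic theorem for two commuting maps.** -/
theorem mean_box {S T : X → X} {μ : Measure X} [IsProbabilityMeasure μ]
    (hS : MeasurePreserving S μ μ) (hT : MeasurePreserving T μ μ) (hST : ∀ x, S (T x) = T (S x))
    {f : X → ℂ} (hf : MemLp f 2 μ) {ε : ℝ} (hε : 0 < ε) :
    ∃ N M : ℕ, 0 < N ∧ 0 < M ∧
      ∫⁻ x, ‖box S T f N M x - (μ[f | sig S T μ]) x‖ₑ ^ 2 ∂μ < ENNReal.ofReal ε := by
  obtain ⟨P, hP, hPf, hPe, hPs⟩ := mean (comp hS) (comp_norm hS)
  obtain ⟨Q, hQ, hQf, hQe, hQs⟩ := mean (comp hT) (comp_norm hT)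
  have hcomm : ∀ w, comp hS (comp hT w) = comp hT (comp hS w) := by
    intro w
    apply Lp.ext
    filter_upwards [comp_coe hS (comp hT w), comp_coe hT (comp hS w),
      hS.quasiMeasurePreserving.ae_eq_comp (comp_coe hT w),
      hT.quasiMeasurePreserving.ae_eq_comp (comp_coe hS w)] with x h1 h2 h3 h4
    rw [h1, h2, h3, h4]
    show w (T (S x)) = w (S (T x))
    rw [hST]
  set F := hf.toLp with hF
  set W := Q (P F) with hW
  have hVW : comp hT W = W := hQf _
  have hUW : comp hS W = W := by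
    have hC := hQ (P F)
    have hD := ((comp hS).continuous.tendsto _).comp hC
    have hE : (⇑(comp hS) ∘ fun n => birkhoffAverage ℂ (⇑(comp hT)) _root_.id n (P F)) =
        fun n => birkhoffAverage ℂ (⇑(comp hT)) _root_.id n (P F) := by
      funext n
      have hcomm : ∀ k : ℕ, comp hS ((⇑(comp hT))^[k] (P F)) = (⇑(comp hT))^[k] (P F) := by
        intro k
        have hc : Function.Commute (⇑(comp hS)) (⇑(comp hT)) := hcomm
        have := (hc.iterate_right k) (P F)
        rw [this, hPf]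
      simp only [Function.comp_apply, birkhoffAverage, birkhoffSum, _root_.id, map_smul, map_sum,
        hcomm]
    rw [hE] at hD
    exact tendsto_nhds_unique hD hC
  -- the limit is the conditional expectation
  set u : X → ℂ := (Lp.aestronglyMeasurable W).mk W with hu
  have hum : Measurable u := (Lp.aestronglyMeasurable W).stronglyMeasurable_mk.measurable
  have hue : ∀ᵐ x ∂μ, W x = u x := (Lp.aestronglyMeasurable W).ae_eq_mk
  have hSu : ∀ᵐ x ∂μ, u (S x) = u x := by
    have h3 := comp_coe hS W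
    rw [hUW] at h3
    filter_upwards [h3, hue, hS.quasiMeasurePreserving.ae hue] with x a b c
    rw [← c, ← b, a]
    rfl
  have hTu : ∀ᵐ x ∂μ, u (T x) = u x := by
    have h3 := comp_coe hT W
    rw [hVW] at h3
    filter_upwards [h3, hue, hT.quasiMeasurePreserving.ae hue] with x a b c
    rw [← c, ← b, a]
    rfl
  have husig : Measurable[sig S T μ] u := meas_sig hum hSu hTu
  have hWi : Integrable W μ := (Lp.memLp W).integrable (by norm_num)
  have hfi : Integrable f μ := hf.integrable (by norm_num)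
  have hWf : (W : X → ℂ) =ᵐ[μ] μ[f | sig S T μ] := by
    refine ae_eq_condExp_of_forall_setIntegral_eq (sig_le S T μ) hfi
      (fun s _ _ => hWi.integrableOn) (fun A hA _ => ?_)
      ⟨u, husig.stronglyMeasurable, hue⟩
    have hAm : MeasurableSet A := hA.1
    set e := indicatorConstLp 2 hAm (measure_ne_top μ A) (1 : ℂ) with he
    have hee : (e : X → ℂ) =ᵐ[μ] A.indicator fun _ => (1 : ℂ) := indicatorConstLp_coeFn
    have hfix : ∀ {R : X → X} (hR : MeasurePreserving R μ μ), R ⁻¹' A =ᵐ[μ] A → comp hR e = e := by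
      intro R hR hRA
      apply Lp.ext
      filter_upwards [comp_coe hR e, hee, hR.quasiMeasurePreserving.ae hee, hRA] with x h1 h2 h3 h4
      rw [h1, h2]
      show e (R x) = _
      rw [h3]
      have h5 : R x ∈ A ↔ x ∈ A := Iff.of_eq h4
      by_cases hx : x ∈ A
      · rw [indicator_of_mem hx, indicator_of_mem (h5.2 hx)]
      · rw [indicator_of_notMem hx, indicator_of_notMem fun h => hx (h5.1 h)]
    have h1 : ⟪e, W⟫_ℂ = ⟪e, F⟫_ℂ := by
      rw [hW, ← hQs, hQe e (hfix hT hA.2.2), ← hPs, hPe e (hfix hS hA.2.1)]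
    rw [he, L2.inner_indicatorConstLp_one, L2.inner_indicatorConstLp_one] at h1
    rw [h1]
    refine setIntegral_congr_ae hAm ?_
    filter_upwards [hf.coeFn_toLp] with x hx _
    exact hx
  -- approximation
  have hε' : 0 < Real.sqrt ε / 2 := by positivity
  obtain ⟨M, hM0, hM⟩ : ∃ M : ℕ, 0 < M ∧
      ‖birkhoffAverage ℂ (⇑(comp hT)) _root_.id M (P F) - W‖ < Real.sqrt ε / 2 := by
    have h1 := (tendsto_iff_norm_sub_tendsto_zero.1 (hQ (P F))).eventually (gt_mem_nhds hε')
    obtain ⟨M, h2, h3⟩ := (h1.and (eventually_gt_atTop 0)).exists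
    exact ⟨M, h3, h2⟩
  obtain ⟨N, hN0, hN⟩ : ∃ N : ℕ, 0 < N ∧
      ‖birkhoffAverage ℂ (⇑(comp hT)) _root_.id M (birkhoffAverage ℂ (⇑(comp hS)) _root_.id N F) -
        birkhoffAverage ℂ (⇑(comp hT)) _root_.id M (P F)‖ < Real.sqrt ε / 2 := by
    have hc : Continuous fun w => birkhoffAverage ℂ (⇑(comp hT)) _root_.id M w := by
      simp only [birkhoffAverage, birkhoffSum, _root_.id]
      have h0 : Continuous fun w : Lp ℂ 2 μ => ∑ k ∈ Finset.range M, (⇑(comp hT))^[k] w :=
        continuous_finsetSum _ fun k _ => (comp hT).continuous.iterate k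
      exact h0.const_smul ((M : ℂ)⁻¹)
    have h1 := ((hc.tendsto (P F)).comp (hP F))
    have h2 := (tendsto_iff_norm_sub_tendsto_zero.1 h1).eventually (gt_mem_nhds hε')
    obtain ⟨N, h3, h4⟩ := (h2.and (eventually_gt_atTop 0)).exists
    exact ⟨N, h4, h3⟩
  refine ⟨N, M, hN0, hM0, ?_⟩
  set G := birkhoffAverage ℂ (⇑(comp hT)) _root_.id M (birkhoffAverage ℂ (⇑(comp hS)) _root_.id N F)
    with hG
  have hGW : ‖G - W‖ < Real.sqrt ε := by
    calc ‖G - W‖ = ‖(G - birkhoffAverage ℂ (⇑(comp hT)) _root_.id M (P F)) +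
          (birkhoffAverage ℂ (⇑(comp hT)) _root_.id M (P F) - W)‖ := by congr 1; abel
      _ ≤ _ := norm_add_le _ _
      _ < Real.sqrt ε / 2 + Real.sqrt ε / 2 := add_lt_add hN hM
      _ = Real.sqrt ε := by ring
  -- the function
  have hGf : ∀ᵐ x ∂μ, G x = box S T f N M x := by
    have h1 : ∀ᵐ x ∂μ, (birkhoffAverage ℂ (⇑(comp hS)) _root_.id N F : Lp ℂ 2 μ) x =
        (N : ℂ)⁻¹ * ∑ i ∈ Finset.range N, f (S^[i] x) := by
      simp only [birkhoffAverage, birkhoffSum, _root_.id]
      have h2 : ∀ᵐ x ∂μ, ∀ i : ℕ, ((⇑(comp hS))^[i] F : Lp ℂ 2 μ) x = f (S^[i] x) := by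
        rw [ae_all_iff]
        intro i
        filter_upwards [comp_iter hS F i, (hS.iterate i).quasiMeasurePreserving.ae hf.coeFn_toLp]
          with x a b
        rw [a]
        exact b
      filter_upwards [Lp.coeFn_smul ((N : ℂ)⁻¹) (∑ i ∈ Finset.range N, (⇑(comp hS))^[i] F),
        Lp.coeFn_finsetSum (Finset.range N) fun i => (⇑(comp hS))^[i] F, h2] with x a b c
      rw [a, Pi.smul_apply, b, smul_eq_mul]
      congr 1
      rw [Finset.sum_apply]
      exact Finset.sum_congr rfl fun i _ => c i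
    set H := birkhoffAverage ℂ (⇑(comp hS)) _root_.id N F with hH
    rw [hG]
    simp only [birkhoffAverage, birkhoffSum, _root_.id]
    have h2 : ∀ᵐ x ∂μ, ∀ j : ℕ, ((⇑(comp hT))^[j] H : Lp ℂ 2 μ) x =
        (N : ℂ)⁻¹ * ∑ i ∈ Finset.range N, f (S^[i] (T^[j] x)) := by
      rw [ae_all_iff]
      intro j
      filter_upwards [comp_iter hT H j, (hT.iterate j).quasiMeasurePreserving.ae h1] with x a b
      rw [a]
      exact b
    filter_upwards [Lp.coeFn_smul ((M : ℂ)⁻¹) (∑ j ∈ Finset.range M, (⇑(comp hT))^[j] H),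
      Lp.coeFn_finsetSum (Finset.range M) fun j => (⇑(comp hT))^[j] H, h2] with x a b c
    rw [a, Pi.smul_apply, b, smul_eq_mul]
    unfold box
    congr 1
    rw [Finset.sum_apply]
    exact Finset.sum_congr rfl fun j _ => c j
  have h1 : ∫⁻ x, ‖box S T f N M x - (μ[f | sig S T μ]) x‖ₑ ^ 2 ∂μ = ‖G - W‖ₑ ^ 2 := by
    rw [Lp.enorm_def, eLpNorm_eq_lintegral_rpow_enorm_toReal (by norm_num) (by norm_num)]
    rw [← ENNReal.rpow_natCast, ← ENNReal.rpow_mul]
    norm_num
    refine lintegral_congr_ae ?_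
    filter_upwards [Lp.coeFn_sub G W, hGf, hWf] with x a b c
    have e1 : (G - W : Lp ℂ 2 μ) x = box S T f N M x - (μ[f | sig S T μ]) x := by
      rw [a, Pi.sub_apply, b, c]
    rw [← e1]
    rfl
  rw [h1, ← ofReal_norm, ← ENNReal.ofReal_pow (norm_nonneg _)]
  refine (ENNReal.ofReal_lt_ofReal_iff hε).2 ?_
  have h2 := pow_lt_pow_left₀ hGW (norm_nonneg _) two_ne_zero
  rwa [Real.sq_sqrt hε.le] at h2

end gen

end Pool.Agent.K3h68.IL
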