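import Pool.Agent.K3h68.IL.Dec

/-!
Ergodic components of an exceptional measure are exceptional.
-/

set_option autoImplicit false

open MeasureTheory Filter Topology Set ProbabilityTheory
open scoped ENNReal InnerProductSpace

namespace Pool.Agent.K3h68.IL

open Pool.Agent.R202.TM Pool.Agent.R202.STP

variable {p q : ℕ} {μ : Measure UnitAddCircle} [IsProbabilityMeasure μ]

lemma iter_smul (r k : ℕ) (y : UnitAddCircle) :
    (fun x : UnitAddCircle => r • x)^[k] y = (r ^ k) • y := by
  induction k with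
  | zero => simp
  | succ k ih => rw [Function.iterate_succ_apply', ih, pow_succ', mul_smul]

lemma cont_box (m : ℤ) (N M : ℕ) : Continuous (box (fun x : UnitAddCircle => p • x)
    (fun x : UnitAddCircle => q • x) (fun x => (fourier m x : ℂ)) N M) := by
  unfold box
  simp only [iter_smul]
  refine continuous_const.mul (continuous_finsetSum _ fun j _ => continuous_const.mul
    (continuous_finsetSum _ fun i _ => ?_))
  exact (fourier m).continuous.comp ((continuous_nsmul _).comp (continuous_nsmul _))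

/-- almost all the conditional measures satisfy the criterion -/
theorem kz_box (hp : MeasurePreserving (fun x : UnitAddCircle => p • x) μ μ)
    (hq : MeasurePreserving (fun x : UnitAddCircle => q • x) μ μ) (m : ℤ) {ε : ℝ} (hε : 0 < ε) :
    ∀ᵐ z ∂μ, ∃ N M : ℕ, 0 < N ∧ 0 < M ∧
      ∫⁻ x, ‖box (fun x : UnitAddCircle => p • x) (fun x : UnitAddCircle => q • x)
        (fun x => (fourier m x : ℂ)) N M x - cf (kz p q μ x) m‖ₑ ^ 2 ∂(kz p q μ z) <
        ENNReal.ofReal ε := by
  rw [ae_iff]
  refine le_antisymm (ENNReal.le_of_forall_pos_le_add fun δ hδ _ => ?_) (zero_le)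
  rw [zero_add]
  have hcomm : ∀ x : UnitAddCircle, p • (q • x) = q • (p • x) := fun x => smul_comm p q x
  obtain ⟨N, M, hN, hM, hNM⟩ := mean_box hp hq hcomm (memLp_fourier μ m)
    (show (0 : ℝ) < ε * δ by positivity)
  set F : UnitAddCircle → ℝ≥0∞ := fun x => ‖box (fun x : UnitAddCircle => p • x)
    (fun x : UnitAddCircle => q • x) (fun x => (fourier m x : ℂ)) N M x - cf (kz p q μ x) m‖ₑ ^ 2
    with hF
  have hFm : Measurable F := by
    have h1 : Measurable fun x => cf (kz p q μ x) m :=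
      (meas_cf (p := p) (q := q) (μ := μ) m).measurable.mono (sig_le _ _ μ) le_rfl
    exact (((cont_box m N M).measurable.sub h1).enorm).pow_const 2
  have h1 : ∫⁻ x, F x ∂μ < ENNReal.ofReal (ε * δ) := by
    refine lt_of_eq_of_lt ?_ hNM
    refine lintegral_congr_ae ?_
    filter_upwards [kz_cf_ae (p := p) (q := q) (μ := μ) m] with x hx
    simp only [hF]
    rw [← hx]
  rw [← ker_lintegral (fun x : UnitAddCircle => p • x) (fun x : UnitAddCircle => q • x) μ hFm] at h1
  have h2 : Measurable fun z => ∫⁻ x, F x ∂(kz p q μ z) := hFm.lintegral_kernel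
  have h3 := mul_meas_ge_le_lintegral (μ := μ) h2 (ENNReal.ofReal ε)
  have h4 : μ {z | ¬ ∃ N M : ℕ, 0 < N ∧ 0 < M ∧
      ∫⁻ x, ‖box (fun x : UnitAddCircle => p • x) (fun x : UnitAddCircle => q • x)
        (fun x => (fourier m x : ℂ)) N M x - cf (kz p q μ x) m‖ₑ ^ 2 ∂(kz p q μ z) <
        ENNReal.ofReal ε} ≤ μ {z | ENNReal.ofReal ε ≤ ∫⁻ x, F x ∂(kz p q μ z)} := by
    refine measure_mono fun z hz => ?_
    have hz' : ¬ ∃ N M : ℕ, 0 < N ∧ 0 < M ∧
      ∫⁻ x, ‖box (fun x : UnitAddCircle => p • x) (fun x : UnitAddCircle => q • x)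
        (fun x => (fourier m x : ℂ)) N M x - cf (kz p q μ x) m‖ₑ ^ 2 ∂(kz p q μ z) <
        ENNReal.ofReal ε := hz
    push Not at hz'
    exact hz' N M hN hM
  refine h4.trans ?_
  have h5 : ENNReal.ofReal ε * μ {z | ENNReal.ofReal ε ≤ ∫⁻ x, F x ∂(kz p q μ z)} ≤
      ENNReal.ofReal ε * (δ : ℝ≥0∞) := by
    refine (h3.trans h1.le).trans (le_of_eq ?_)
    rw [ENNReal.ofReal_mul hε.le, ENNReal.ofReal_coe_nnreal]
  exact (ENNReal.mul_le_mul_iff_right (ENNReal.ofReal_pos.2 hε).ne' ENNReal.ofReal_ne_top).1 h5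

/-- **The conditional measures are ergodic.** -/
theorem kz_erg (hp : MeasurePreserving (fun x : UnitAddCircle => p • x) μ μ)
    (hq : MeasurePreserving (fun x : UnitAddCircle => q • x) μ μ) :
    ∀ᵐ z ∂μ, JointErg (fun x : UnitAddCircle => p • x) (fun x : UnitAddCircle => q • x)
      (kz p q μ z) := by
  have h1 : ∀ᵐ z ∂μ, ∀ m : ℤ, ∀ l : ℕ, ∃ N M : ℕ, 0 < N ∧ 0 < M ∧
      ∫⁻ x, ‖box (fun x : UnitAddCircle => p • x) (fun x : UnitAddCircle => q • x)
        (fun x => (fourier m x : ℂ)) N M x - cf (kz p q μ x) m‖ₑ ^ 2 ∂(kz p q μ z) <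
        ENNReal.ofReal (1 / ((l : ℝ) + 1)) := by
    rw [ae_all_iff]
    intro m
    rw [ae_all_iff]
    intro l
    exact kz_box hp hq m (by positivity)
  have h2 : ∀ᵐ z ∂μ, ∀ m : ℤ, ∀ᵐ x ∂(kz p q μ z), cf (kz p q μ x) m = cf (kz p q μ z) m := by
    rw [ae_all_iff]
    intro m
    have hre := ker_const (fun x : UnitAddCircle => p • x) (fun x : UnitAddCircle => q • x) μ
      (u := fun z => (cf (kz p q μ z) m).re) (Complex.measurable_re.comp
        (meas_cf (p := p) (q := q) (μ := μ) m).measurable) (C := 1)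
      (fun x => (Complex.abs_re_le_norm _).trans (norm_cf_le _ m))
    have him := ker_const (fun x : UnitAddCircle => p • x) (fun x : UnitAddCircle => q • x) μ
      (u := fun z => (cf (kz p q μ z) m).im) (Complex.measurable_im.comp
        (meas_cf (p := p) (q := q) (μ := μ) m).measurable) (C := 1)
      (fun x => (Complex.abs_im_le_norm _).trans (norm_cf_le _ m))
    filter_upwards [hre, him] with z a b
    filter_upwards [a, b] with x c d
    exact Complex.ext c d
  filter_upwards [kz_inv hp hq, h1, h2] with z hz1 hz2 hz3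
  refine erg_of_box hz1.1 hz1.2 fun m ε hε => ?_
  obtain ⟨l, hl⟩ := exists_nat_one_div_lt hε
  obtain ⟨N, M, hN, hM, hNM⟩ := hz2 m l
  refine ⟨N, M, hN, hM, lt_of_eq_of_lt ?_ (hNM.trans_le (ENNReal.ofReal_le_ofReal hl.le))⟩
  refine lintegral_congr_ae ?_
  filter_upwards [hz3 m] with x hx
  rw [hx]

/-- an atom of an invariant measure is a torsion point -/
lemma atom_tors (hp2 : 2 ≤ p) (hp : MeasurePreserving (fun x : UnitAddCircle => p • x) μ μ)
    {y : UnitAddCircle} (hy : μ {y} ≠ 0) : ∃ n : ℕ, 0 < n ∧ n • y = 0 := by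
  by_contra hcon
  push Not at hcon
  have h1 : ∀ k : ℕ, μ {y} ≤ μ {(p ^ k) • y} := by
    intro k
    have h2 := pres_pow hp k
    rw [← h2.measure_preimage (measurableSet_singleton ((p ^ k) • y)).nullMeasurableSet]
    exact measure_mono fun x hx => by
      rw [mem_singleton_iff] at hx
      subst hx
      rfl
  have hinj : ∀ i j : ℕ, i < j → (p ^ i) • y ≠ (p ^ j) • y := by
    intro i j hij h
    have h3 : (p ^ j - p ^ i) • y = 0 := by
      have h4 : p ^ i ≤ p ^ j := Nat.pow_le_pow_right (by omega) hij.le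
      have h5 : (p ^ j - p ^ i) • y + (p ^ i) • y = (p ^ j) • y := by
        rw [← add_smul, Nat.sub_add_cancel h4]
      rw [← h] at h5
      simpa using h5
    exact hcon _ (Nat.sub_pos_of_lt (Nat.pow_lt_pow_right (by omega) hij)) h3
  have h2 := Measure.finite_const_le_meas_of_disjoint_iUnion μ (pos_iff_ne_zero.2 hy)
    (As := fun k : ℕ => {(p ^ k) • y}) (fun k => measurableSet_singleton _) (fun i j hij => by
      rw [Function.onFun, disjoint_singleton]
      rcases lt_or_gt_of_ne hij with h | h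
      · exact hinj i j h
      · exact (hinj j i h).symm) (measure_ne_top μ _)
  have h3 : {k : ℕ | μ {y} ≤ μ {(p ^ k) • y}} = univ := by
    ext k
    simp [h1 k]
  rw [h3] at h2
  exact Set.infinite_univ h2

lemma countable_tors : {y : UnitAddCircle | ∃ n : ℕ, 0 < n ∧ n • y = 0}.Countable := by
  have : {y : UnitAddCircle | ∃ n : ℕ, 0 < n ∧ n • y = 0} =
      ⋃ n : ℕ, {y : UnitAddCircle | 0 < n ∧ n • y = 0} := by
    ext y
    simp
  rw [this]
  refine countable_iUnion fun n => ?_
  by_cases hn : 0 < n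
  · refine ((AddCircle.finite_torsion (1 : ℝ) hn).subset fun y hy => hy.2).countable
  · have : {y : UnitAddCircle | 0 < n ∧ n • y = 0} = ∅ := by
      ext y
      simp [hn]
    rw [this]
    exact countable_empty

/-- almost all the conditional measures of an atomless measure are atomless -/
theorem kz_atomless (hp2 : 2 ≤ p) (hp : MeasurePreserving (fun x : UnitAddCircle => p • x) μ μ)
    (hq : MeasurePreserving (fun x : UnitAddCircle => q • x) μ μ) (hna : ∀ x, μ {x} = 0) :
    ∀ᵐ z ∂μ, ∀ x, (kz p q μ z) {x} = 0 := by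
  have : NullSingletonClass μ := ⟨hna⟩
  have h1 : ∀ᵐ x ∂μ, ¬ ∃ n : ℕ, 0 < n ∧ n • x = 0 := by
    rw [ae_iff]
    simp only [not_not]
    exact countable_tors.measure_zero μ
  filter_upwards [kz_inv hp hq, ker_ae (fun x : UnitAddCircle => p • x)
    (fun x : UnitAddCircle => q • x) μ h1] with z hz1 hz2 x
  by_contra hx
  have h2 := atom_tors hp2 hz1.1 hx
  rw [ae_iff] at hz2
  simp only [not_not] at hz2
  refine hx (le_antisymm ?_ zero_le)
  rw [← hz2]
  exact measure_mono (singleton_subset_iff.2 h2)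

/-- **An exceptional measure has an exceptional ergodic component.** -/
theorem exists_erg (hp2 : 2 ≤ p) (hp : MeasurePreserving (fun x : UnitAddCircle => p • x) μ μ)
    (hq : MeasurePreserving (fun x : UnitAddCircle => q • x) μ μ) (hna : ∀ x, μ {x} = 0)
    (hne : μ ≠ volume) : ∃ ν : Measure UnitAddCircle, IsProbabilityMeasure ν ∧
      MeasurePreserving (fun x : UnitAddCircle => p • x) ν ν ∧
      MeasurePreserving (fun x : UnitAddCircle => q • x) ν ν ∧ (∀ x, ν {x} = 0) ∧
      JointErg (fun x : UnitAddCircle => p • x) (fun x : UnitAddCircle => q • x) ν ∧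
      ν ≠ volume := by
  by_contra hcon
  apply hne
  have h1 : ∀ᵐ z ∂μ, kz p q μ z = volume := by
    filter_upwards [kz_inv hp hq, kz_erg hp hq, kz_atomless hp2 hp hq hna] with z h1 h2 h3
    by_contra h
    exact hcon ⟨kz p q μ z, inferInstance, h1.1, h1.2, h3, h2, h⟩
  have h2 := ker_comp (fun x : UnitAddCircle => p • x) (fun x : UnitAddCircle => q • x) μ
  refine Measure.ext fun A hA => ?_
  conv_lhs => rw [← h2]
  rw [Measure.bind_apply hA (Kernel.aemeasurable _)]
  have h3 : ∫⁻ z, (kz p q μ z) A ∂μ = ∫⁻ _z, (volume : Measure UnitAddCircle) A ∂μ := by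
    refine lintegral_congr_ae ?_
    filter_upwards [h1] with z hz
    rw [hz]
  rw [h3, lintegral_const, measure_univ, mul_one]

end Pool.Agent.K3h68.IL
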