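import Pool.Agent.K3h68.IL.Img

/-!
The lift of a measure on the circle under `x ↦ n x`: fibres, Fourier coefficients, invariant sets.
-/

set_option autoImplicit false

open MeasureTheory Filter Topology Set
open scoped ENNReal

namespace Pool.Agent.K3h68.IL

open Pool.Agent.R202.STP Pool.Agent.R202.TM

/-- a measurable section of `x ↦ n x` -/
noncomputable def sec (n : ℕ) (x : UnitAddCircle) : UnitAddCircle :=
  (((AddCircle.measurableEquivIco (1 : ℝ) 0 x : ℝ) / n : ℝ) : UnitAddCircle)

/-- the point `1 / n` -/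
noncomputable def uu (n : ℕ) : UnitAddCircle := (((1 : ℝ) / n : ℝ) : UnitAddCircle)

lemma order_uu {n : ℕ} (hn : 0 < n) : addOrderOf (uu n) = n :=
  AddCircle.addOrderOf_period_div (p := (1 : ℝ)) hn

lemma nsmul_uu {n : ℕ} (hn : 0 < n) : n • uu n = 0 := by
  have := addOrderOf_nsmul_eq_zero (uu n)
  rwa [order_uu hn] at this

lemma nsmul_sec {n : ℕ} (hn : 0 < n) (x : UnitAddCircle) : n • sec n x = x := by
  unfold sec
  rw [← AddCircle.coe_nsmul, nsmul_eq_mul, mul_div_cancel₀ _ (by positivity)]
  exact AddCircle.coe_equivIco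

lemma meas_sec (n : ℕ) : Measurable (sec n) := by
  unfold sec
  exact AddCircle.measurable_mk'.comp ((measurable_subtype_coe.comp
    (AddCircle.measurableEquivIco (1 : ℝ) 0).measurable).div_const _)

/-- the points over `x` -/
noncomputable def pre (n : ℕ) (x : UnitAddCircle) (j : ℕ) : UnitAddCircle := sec n x + j • uu n

lemma meas_pre (n j : ℕ) : Measurable fun x => pre n x j := (meas_sec n).add_const _

lemma nsmul_pre {n : ℕ} (hn : 0 < n) (x : UnitAddCircle) (j : ℕ) : n • pre n x j = x := by
  unfold pre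
  rw [smul_add, nsmul_sec hn, smul_comm, nsmul_uu hn, smul_zero, add_zero]

lemma pre_inj {n : ℕ} (hn : 0 < n) (x : UnitAddCircle) {i j : ℕ} (hi : i < n) (hj : j < n)
    (h : pre n x i = pre n x j) : i = j := by
  have h1 : i • uu n = j • uu n := add_left_cancel h
  have h2 := nsmul_inj_mod.1 h1
  rw [order_uu hn] at h2
  rwa [Nat.mod_eq_of_lt hi, Nat.mod_eq_of_lt hj] at h2

lemma exists_pre {n : ℕ} (hn : 0 < n) {x y : UnitAddCircle} (h : n • y = x) :
    ∃ j, j < n ∧ pre n x j = y := by
  have h1 : n • (y - sec n x) = 0 := by rw [smul_sub, h, nsmul_sec hn, sub_self]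
  obtain ⟨m, hm, hmy⟩ := (AddCircle.nsmul_eq_zero_iff hn).1 h1
  refine ⟨m, hm, ?_⟩
  have h2 : m • uu n = y - sec n x := by
    rw [← hmy]
    unfold uu
    rw [← AddCircle.coe_nsmul, nsmul_eq_mul]
    congr 1
    ring
  unfold pre
  rw [h2]
  abel

open Classical in
/-- the points over `x` as a finite set -/
noncomputable def fib (n : ℕ) (x : UnitAddCircle) : Finset UnitAddCircle :=
  (Finset.range n).image fun j => pre n x j

lemma mem_fib {n : ℕ} (hn : 0 < n) {x y : UnitAddCircle} : y ∈ fib n x ↔ n • y = x := by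
  classical
  unfold fib
  rw [Finset.mem_image]
  constructor
  · rintro ⟨j, _, rfl⟩
    exact nsmul_pre hn x j
  · intro h
    obtain ⟨j, hj, hjy⟩ := exists_pre hn h
    exact ⟨j, Finset.mem_range.2 hj, hjy⟩

lemma card_fib {n : ℕ} (hn : 0 < n) (x : UnitAddCircle) : (fib n x).card = n := by
  classical
  unfold fib
  rw [Finset.card_image_of_injOn, Finset.card_range]
  intro i hi j hj h
  rw [Finset.coe_range] at hi hj
  exact pre_inj hn x hi hj h

open Classical in
/-- the number of points of `E` over `x` -/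
noncomputable def cnt (n : ℕ) (E : Set UnitAddCircle) (x : UnitAddCircle) : ℕ :=
  ((Finset.range n).filter fun j => pre n x j ∈ E).card

lemma cnt_fib {n : ℕ} (hn : 0 < n) (E : Set UnitAddCircle) (x : UnitAddCircle)
    [DecidablePred (· ∈ E)] : cnt n E x = ((fib n x).filter (· ∈ E)).card := by
  classical
  unfold cnt fib
  rw [Finset.filter_image, Finset.card_image_of_injOn]
  · congr 1
    ext j
    simp
  · intro i hi j hj h
    rw [Finset.coe_filter] at hi hj
    exact pre_inj hn x (Finset.mem_range.1 hi.1) (Finset.mem_range.1 hj.1) h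

lemma cnt_le (n : ℕ) (E : Set UnitAddCircle) (x : UnitAddCircle) : cnt n E x ≤ n := by
  classical
  unfold cnt
  refine (Finset.card_filter_le _ _).trans ?_
  rw [Finset.card_range]

lemma smul_inj {n p : ℕ} (h : Nat.Coprime n p) {y z : UnitAddCircle} (h1 : n • y = n • z)
    (h2 : p • y = p • z) : y = z := by
  have h3 : n • (y - z) = 0 := by rw [smul_sub, h1, sub_self]
  have h4 : p • (y - z) = 0 := by rw [smul_sub, h2, sub_self]
  have h5 := addOrderOf_dvd_of_nsmul_eq_zero h3
  have h6 := addOrderOf_dvd_of_nsmul_eq_zero h4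
  have h7 : addOrderOf (y - z) = 1 := Nat.dvd_one.1 (h ▸ Nat.dvd_gcd h5 h6)
  exact sub_eq_zero.1 (AddMonoid.addOrderOf_eq_one_iff.1 h7)

/-- the number of points of an invariant set is an invariant function -/
theorem cnt_inv {n p : ℕ} (hn : 0 < n) (h : Nat.Coprime n p) {E : Set UnitAddCircle}
    (hE : (fun x : UnitAddCircle => p • x) ⁻¹' E = E) (x : UnitAddCircle) :
    cnt n E (p • x) = cnt n E x := by
  classical
  have hmem : ∀ y : UnitAddCircle, p • y ∈ E ↔ y ∈ E := by
    intro y
    constructor
    · intro hy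
      rw [← hE]
      exact hy
    · intro hy
      rw [← hE] at hy
      exact hy
  have hinj : Set.InjOn (fun y : UnitAddCircle => p • y) (fib n x) := by
    intro y hy z hz hyz
    have h1 := (mem_fib hn).1 (Finset.mem_coe.1 hy)
    have h2 := (mem_fib hn).1 (Finset.mem_coe.1 hz)
    exact smul_inj h (h1.trans h2.symm) hyz
  have himg : (fib n x).image (fun y : UnitAddCircle => p • y) = fib n (p • x) := by
    refine Finset.eq_of_subset_of_card_le ?_ ?_
    · intro z hz
      rw [Finset.mem_image] at hz
      obtain ⟨y, hy, rfl⟩ := hz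
      rw [mem_fib hn] at hy ⊢
      rw [smul_comm, hy]
    · rw [Finset.card_image_of_injOn hinj, card_fib hn, card_fib hn]
  rw [cnt_fib hn, cnt_fib hn, ← himg, Finset.filter_image, Finset.card_image_of_injOn]
  · congr 1
    ext y
    simp only [Finset.mem_filter, hmem]
  · exact hinj.mono fun y hy => by
      rw [Finset.coe_filter] at hy
      exact hy.1

lemma meas_cnt (n : ℕ) {E : Set UnitAddCircle} (hE : MeasurableSet E) : Measurable (cnt n E) := by
  classical
  have h1 : cnt n E = fun x => ∑ j ∈ Finset.range n, ((fun x => pre n x j) ⁻¹' E).indicator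
      (fun _ => (1 : ℕ)) x := by
    funext x
    unfold cnt
    rw [Finset.card_filter]
    refine Finset.sum_congr rfl fun j _ => ?_
    by_cases hx : pre n x j ∈ E
    · rw [if_pos hx, Set.indicator_of_mem (by exact hx)]
    · rw [if_neg hx, Set.indicator_of_notMem (by exact hx)]
  rw [h1]
  exact Finset.measurable_sum _ fun j _ => measurable_const.indicator (meas_pre n j hE)

/-- it is almost everywhere constant for an ergodic measure -/
theorem cnt_const {n p q : ℕ} (hn : 0 < n) (h : Nat.Coprime n p) (h' : Nat.Coprime n q)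
    {E : Set UnitAddCircle} (hEm : MeasurableSet E) (hE : (fun x : UnitAddCircle => p • x) ⁻¹' E = E)
    (hE' : (fun x : UnitAddCircle => q • x) ⁻¹' E = E) {ν : Measure UnitAddCircle}
    [IsProbabilityMeasure ν]
    (herg : JointErg (fun x : UnitAddCircle => p • x) (fun x : UnitAddCircle => q • x) ν) :
    ∃ k : ℕ, ∀ᵐ x ∂ν, cnt n E x = k := by
  have hset : ∀ k : ℕ, ν {x | cnt n E x = k} = 0 ∨ ν {x | cnt n E x = k} = 1 := by
    intro k
    refine herg _ (meas_cnt n hEm (measurableSet_singleton k)) ?_ ?_
    · ext x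
      show cnt n E (p • x) = k ↔ cnt n E x = k
      rw [cnt_inv hn h hE]
    · ext x
      show cnt n E (q • x) = k ↔ cnt n E x = k
      rw [cnt_inv hn h' hE']
  by_contra hcon
  push Not at hcon
  have h0 : ∀ k : ℕ, ν {x | cnt n E x = k} = 0 := by
    intro k
    rcases hset k with h1 | h1
    · exact h1
    · exfalso
      refine hcon k ?_
      have h5 : ∀ᵐ x ∂ν, cnt n E x = k :=
        (prob_compl_eq_zero_iff (meas_cnt n hEm (measurableSet_singleton k))).2 h1
      simpa using h5
  have h2 : ν univ = 0 := by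
    have h3 : (univ : Set UnitAddCircle) = ⋃ k : ℕ, {x | cnt n E x = k} := by
      ext x
      simp
    rw [h3]
    exact measure_iUnion_null h0
  rw [measure_univ] at h2
  exact one_ne_zero h2

/-- the lift of a measure -/
noncomputable def lift (n : ℕ) (ν : Measure UnitAddCircle) : Measure UnitAddCircle :=
  (n : ℝ≥0∞)⁻¹ • ∑ j ∈ Finset.range n, ν.map fun x => pre n x j

lemma lift_apply (n : ℕ) (ν : Measure UnitAddCircle) {A : Set UnitAddCircle} (hA : MeasurableSet A) :
    lift n ν A = (n : ℝ≥0∞)⁻¹ * ∑ j ∈ Finset.range n, ν {x | pre n x j ∈ A} := by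
  unfold lift
  rw [Measure.smul_apply, Measure.coe_finsetSum, Finset.sum_apply, smul_eq_mul]
  congr 1
  exact Finset.sum_congr rfl fun j _ => Measure.map_apply (meas_pre n j) hA

lemma lift_prob {n : ℕ} (hn : 0 < n) (ν : Measure UnitAddCircle) [IsProbabilityMeasure ν] :
    IsProbabilityMeasure (lift n ν) := by
  refine ⟨?_⟩
  rw [lift_apply n ν MeasurableSet.univ]
  simp only [mem_univ, ofPred_true, measure_univ, Finset.sum_const, Finset.card_range, nsmul_eq_mul,
    mul_one]
  exact ENNReal.inv_mul_cancel (by exact_mod_cast hn.ne') (ENNReal.natCast_ne_top n)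

/-- the measure of the part of an invariant set over a set -/
theorem lift_inter {n : ℕ} (hn : 0 < n) {ν : Measure UnitAddCircle} [IsProbabilityMeasure ν]
    {E A : Set UnitAddCircle} (hE : MeasurableSet E) (hA : MeasurableSet A) {k : ℕ}
    (hk : ∀ᵐ x ∂ν, cnt n E x = k) :
    lift n ν (E ∩ (fun x : UnitAddCircle => n • x) ⁻¹' A) = (n : ℝ≥0∞)⁻¹ * (k * ν A) := by
  classical
  have hm : Measurable fun x : UnitAddCircle => n • x := (continuous_nsmul n).measurable
  rw [lift_apply n ν (hE.inter (hm hA))]
  congr 1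
  have h1 : ∀ j ∈ Finset.range n, ν {x | pre n x j ∈ E ∩ (fun x : UnitAddCircle => n • x) ⁻¹' A} =
      ∫⁻ x in A, ((fun x => pre n x j) ⁻¹' E).indicator (fun _ => (1 : ℝ≥0∞)) x ∂ν := by
    intro j _
    have h0 := lintegral_indicator_one (μ := ν.restrict A) (meas_pre n j hE)
    rw [show (∫⁻ x in A, ((fun x => pre n x j) ⁻¹' E).indicator (fun _ => (1 : ℝ≥0∞)) x ∂ν) =
      (ν.restrict A) ((fun x => pre n x j) ⁻¹' E) from h0, Measure.restrict_apply (meas_pre n j hE)]
    congr 1
    ext x
    simp only [mem_ofPred_eq, mem_inter_iff, mem_preimage, nsmul_pre hn]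
  rw [Finset.sum_congr rfl h1, ← lintegral_finsetSum _ fun j _ =>
    (measurable_const.indicator (meas_pre n j hE))]
  have h2 : ∀ᵐ x ∂(ν.restrict A), ∑ j ∈ Finset.range n,
      ((fun x => pre n x j) ⁻¹' E).indicator (fun _ => (1 : ℝ≥0∞)) x = (k : ℝ≥0∞) := by
    filter_upwards [ae_restrict_of_ae hk] with x hx
    rw [← hx]
    unfold cnt
    rw [Finset.card_filter]
    push_cast
    refine Finset.sum_congr rfl fun j _ => ?_
    by_cases hx : pre n x j ∈ E
    · rw [if_pos hx, Set.indicator_of_mem (by exact hx)]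
    · rw [if_neg hx, Set.indicator_of_notMem (by exact hx)]
  rw [lintegral_congr_ae h2, lintegral_const, Measure.restrict_apply_univ]

/-- the Fourier coefficients of the lift -/
theorem cf_lift {n : ℕ} (hn : 0 < n) (ν : Measure UnitAddCircle) [IsProbabilityMeasure ν] (m : ℤ) :
    cf (lift n ν) m = if (n : ℤ) ∣ m then cf ν (m / n) else 0 := by
  have h1 : cf (lift n ν) m = (n : ℂ)⁻¹ * ∑ j ∈ Finset.range n,
      (fourier m (uu n) : ℂ) ^ j * ∫ x, (fourier m (sec n x) : ℂ) ∂ν := by
    unfold cf lift
    rw [integral_smul_measure, integral_finsetSum_measure]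
    · rw [ENNReal.toReal_inv, ENNReal.toReal_natCast]
      rw [Complex.real_smul]
      push_cast
      congr 1
      refine Finset.sum_congr rfl fun j _ => ?_
      rw [integral_map (meas_pre n j).aemeasurable (fourier m).continuous.aestronglyMeasurable,
        ← integral_const_mul]
      refine integral_congr_ae (Eventually.of_forall fun x => ?_)
      show (fourier m (sec n x + j • uu n) : ℂ) = (fourier m (uu n) : ℂ) ^ j * fourier m (sec n x)
      rw [fourier_pow]
      rw [fourier_apply, fourier_apply, fourier_apply, smul_add, AddCircle.toCircle_add,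
        Circle.coe_mul, mul_comm]
      congr 3
      rw [mul_smul, natCast_zsmul]
    · intro j _
      have : IsProbabilityMeasure (ν.map fun x => pre n x j) :=
        Measure.isProbabilityMeasure_map (meas_pre n j).aemeasurable
      exact Integrable.of_bound (fourier m).continuous.aestronglyMeasurable 1
        (Eventually.of_forall fun x => (norm_fourier m x).le)
  have hnC : (n : ℂ) ≠ 0 := by exact_mod_cast hn.ne'
  rw [h1, ← Finset.sum_mul]
  by_cases hm : (n : ℤ) ∣ m
  · obtain ⟨l, rfl⟩ := hm
    have h2 : (fourier ((n : ℤ) * l) (uu n) : ℂ) = 1 := by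
      rw [fourier_apply, mul_comm, mul_smul, natCast_zsmul, nsmul_uu hn, smul_zero]
      simp
    rw [if_pos (Dvd.intro l rfl), h2]
    simp only [one_pow, Finset.sum_const, Finset.card_range, nsmul_eq_mul, mul_one]
    rw [← mul_assoc, inv_mul_cancel₀ hnC, one_mul, Int.mul_ediv_cancel_left l (by exact_mod_cast hn.ne')]
    unfold cf
    refine integral_congr_ae (Eventually.of_forall fun x => ?_)
    show (fourier ((n : ℤ) * l) (sec n x) : ℂ) = fourier l x
    rw [fourier_apply, fourier_apply, mul_comm, mul_smul, natCast_zsmul, nsmul_sec hn]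
  · rw [if_neg hm]
    have h2 : (fourier m (uu n) : ℂ) ≠ 1 := by
      intro h
      apply hm
      have h3 := fourier_eq_one h
      have h4 := addOrderOf_dvd_iff_zsmul_eq_zero.2 h3
      rwa [order_uu hn] at h4
    have h3 : (fourier m (uu n) : ℂ) ^ n = 1 := by
      rw [fourier_pow, fourier_apply, mul_smul, natCast_zsmul, nsmul_uu hn, smul_zero]
      simp
    rw [geom_sum_eq h2, h3]
    simp

end Pool.Agent.K3h68.IL
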