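import Pool.Agent.K3h68.IL.Img2
import Pool.Agent.K3h68.IL.Ex

/-!
Final assembly: Furstenberg's conjecture is local at Lebesgue measure.
-/

set_option autoImplicit false

open MeasureTheory Filter Topology Set
open scoped ENNReal

namespace Pool.Agent.K3h68.IL

open Pool.Agent.R202.STP Pool.Agent.R202.TM

lemma pq_inj {p q : ℕ} (hp : 2 ≤ p) (hq : 2 ≤ q)
    (hirr : Irrational (Real.log (p : ℝ) / Real.log (q : ℝ))) {i j k l : ℕ}
    (h : p ^ i * q ^ j = p ^ k * q ^ l) : i = k ∧ j = l := by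
  have hp1 : (1 : ℝ) < p := by exact_mod_cast (show 1 < p by omega)
  have hq1 : (1 : ℝ) < q := by exact_mod_cast (show 1 < q by omega)
  have hlp := Real.log_pos hp1
  have hlq := Real.log_pos hq1
  have h1 : (i : ℝ) * Real.log p + j * Real.log q = k * Real.log p + l * Real.log q := by
    have h2 : Real.log (((p ^ i * q ^ j : ℕ) : ℝ)) = Real.log (((p ^ k * q ^ l : ℕ) : ℝ)) := by
      rw [h]
    push_cast at h2
    rw [Real.log_mul (by positivity) (by positivity), Real.log_mul (by positivity) (by positivity),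
      Real.log_pow, Real.log_pow, Real.log_pow, Real.log_pow] at h2
    exact h2
  by_cases hik : i = k
  · subst hik
    refine ⟨rfl, ?_⟩
    have h2 : ((j : ℝ) - l) * Real.log q = 0 := by linarith
    rcases mul_eq_zero.1 h2 with h3 | h3
    · have : (j : ℝ) = l := by linarith
      exact_mod_cast this
    · exact absurd h3 hlq.ne'
  · exfalso
    have hik' : ((i : ℝ) - k) ≠ 0 := by
      intro h2
      apply hik
      have : (i : ℝ) = k := by linarith
      exact_mod_cast this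
    have h2 : Real.log (p : ℝ) / Real.log (q : ℝ) = ((l : ℝ) - j) / ((i : ℝ) - k) := by
      rw [div_eq_div_iff hlq.ne' hik']
      linarith
    apply hirr
    rw [h2]
    exact ⟨((l : ℚ) - j) / ((i : ℚ) - k), by push_cast; rfl⟩

/-- **Ergodic lifts with a rate.** -/
theorem lifts {p q : ℕ} (hp : 2 ≤ p) (hq : 2 ≤ q)
    (hirr : Irrational (Real.log (p : ℝ) / Real.log (q : ℝ)))
    {ν : Measure UnitAddCircle} [IsProbabilityMeasure ν]
    (hip : MeasurePreserving (fun x : UnitAddCircle => p • x) ν ν)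
    (hiq : MeasurePreserving (fun x : UnitAddCircle => q • x) ν ν)
    (herg : JointErg (fun x : UnitAddCircle => p • x) (fun x : UnitAddCircle => q • x) ν)
    {n : ℕ} (hn : 2 ≤ n) (h1 : Nat.Coprime n p) (h2 : Nat.Coprime n q)
    (B : Finset ℤ) (hB : ∀ b ∈ B, b ≠ 0 ∧ b ^ 2 ≤ n) :
    ∃ ν' : Measure UnitAddCircle, IsProbabilityMeasure ν' ∧
      MeasurePreserving (fun x : UnitAddCircle => p • x) ν' ν' ∧
      MeasurePreserving (fun x : UnitAddCircle => q • x) ν' ν' ∧
      JointErg (fun x : UnitAddCircle => p • x) (fun x : UnitAddCircle => q • x) ν' ∧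
      ν'.map (fun x : UnitAddCircle => n • x) = ν ∧
      ∑ b ∈ B, ‖cf ν' b‖ ^ 2 ≤ 16 * Real.log p * Real.log q / Real.log n ^ 2 * B.card := by
  have hp1 : (1 : ℝ) < p := by exact_mod_cast (show 1 < p by omega)
  have hq1 : (1 : ℝ) < q := by exact_mod_cast (show 1 < q by omega)
  have hn1 : (1 : ℝ) < n := by exact_mod_cast (show 1 < n by omega)
  have hlp := Real.log_pos hp1
  have hlq := Real.log_pos hq1
  have hln := Real.log_pos hn1
  set I : ℕ := ⌊Real.log n / (4 * Real.log p)⌋₊ + 1 with hI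
  set J : ℕ := ⌊Real.log n / (4 * Real.log q)⌋₊ + 1 with hJ
  set S : Finset ℕ := (Finset.range I ×ˢ Finset.range J).image fun u => p ^ u.1 * q ^ u.2 with hS
  have hcard : S.card = I * J := by
    rw [hS, Finset.card_image_of_injOn, Finset.card_product, Finset.card_range, Finset.card_range]
    intro u _ v _ h
    exact Prod.ext (pq_inj hp hq hirr h).1 (pq_inj hp hq hirr h).2
  have hSne : S.Nonempty := by
    rw [← Finset.card_pos, hcard]
    positivity
  have hSB : ∀ s ∈ S, 0 < s ∧ (∃ i j : ℕ, s = p ^ i * q ^ j) ∧ ∀ b ∈ B, b.natAbs * s ≤ n := by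
    intro s hs
    rw [hS, Finset.mem_image] at hs
    obtain ⟨⟨i, j⟩, hij, rfl⟩ := hs
    rw [Finset.mem_product, Finset.mem_range, Finset.mem_range] at hij
    refine ⟨Nat.mul_pos (pow_pos (by omega) _) (pow_pos (by omega) _), ⟨i, j, rfl⟩, fun b hb => ?_⟩
    have h3 : (i : ℝ) ≤ Real.log n / (4 * Real.log p) :=
      (Nat.le_floor_iff (by positivity)).1 (Nat.lt_succ_iff.1 hij.1)
    have h4 : (j : ℝ) ≤ Real.log n / (4 * Real.log q) :=
      (Nat.le_floor_iff (by positivity)).1 (Nat.lt_succ_iff.1 hij.2)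
    rw [le_div_iff₀ (by positivity)] at h3 h4
    have h5 : Real.log (((p ^ i * q ^ j : ℕ) : ℝ) ^ 2) ≤ Real.log n := by
      push_cast
      rw [Real.log_pow, Real.log_mul (by positivity) (by positivity), Real.log_pow, Real.log_pow]
      push_cast
      linarith
    have h6 : ((p ^ i * q ^ j : ℕ) : ℝ) ^ 2 ≤ n :=
      (Real.log_le_log_iff (by positivity) (by positivity)).1 h5
    have h7 : (p ^ i * q ^ j) ^ 2 ≤ n := by exact_mod_cast h6
    have h8 : b.natAbs ^ 2 ≤ n := by
      have h9 := (hB b hb).2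
      rw [← Int.natAbs_sq] at h9
      exact_mod_cast h9
    have h9 : (b.natAbs * (p ^ i * q ^ j)) ^ 2 ≤ n ^ 2 := by
      rw [mul_pow, sq n]
      exact Nat.mul_le_mul h8 h7
    exact (Nat.pow_le_pow_iff_left two_ne_zero).1 h9
  obtain ⟨ν', a1, a2, a3, a4, a5, a6⟩ := erg_lift (by omega) h1 h2 hip hiq herg hSne
    (fun h => (hB 0 h).1 rfl) hSB
  refine ⟨ν', a1, a2, a3, a4, a5, a6.trans ?_⟩
  rw [hcard]
  push_cast
  have h3 : Real.log n / (4 * Real.log p) ≤ (⌊Real.log n / (4 * Real.log p)⌋₊ : ℝ) + 1 :=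
    (Nat.lt_floor_add_one _).le
  have h4 : Real.log n / (4 * Real.log q) ≤ (⌊Real.log n / (4 * Real.log q)⌋₊ : ℝ) + 1 :=
    (Nat.lt_floor_add_one _).le
  have h5 : Real.log n / (4 * Real.log p) * (Real.log n / (4 * Real.log q)) ≤
      ((⌊Real.log n / (4 * Real.log p)⌋₊ : ℝ) + 1) * ((⌊Real.log n / (4 * Real.log q)⌋₊ : ℝ) + 1) :=
    mul_le_mul h3 h4 (by positivity) (by positivity)
  rw [hI, hJ]
  push_cast
  calc (B.card : ℝ) / (((⌊Real.log n / (4 * Real.log p)⌋₊ : ℝ) + 1) *
        ((⌊Real.log n / (4 * Real.log q)⌋₊ : ℝ) + 1))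
      ≤ B.card / (Real.log n / (4 * Real.log p) * (Real.log n / (4 * Real.log q))) :=
        div_le_div_of_nonneg_left (Nat.cast_nonneg _) (by positivity) h5
    _ = _ := by
        field_simp
        ring

/-- the atomless probability measures different from Lebesgue measure which are invariant and
ergodic under the joint action of `x ↦ p x` and `x ↦ q x` -/
def Exc (p q : ℕ) : Set (ProbabilityMeasure UnitAddCircle) :=
  {ν | MeasurePreserving (fun x : UnitAddCircle => p • x) (ν : Measure UnitAddCircle) ν ∧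
    MeasurePreserving (fun x : UnitAddCircle => q • x) (ν : Measure UnitAddCircle) ν ∧
    (∀ x, (ν : Measure UnitAddCircle) {x} = 0) ∧
    JointErg (fun x : UnitAddCircle => p • x) (fun x : UnitAddCircle => q • x)
      (ν : Measure UnitAddCircle) ∧
    (ν : Measure UnitAddCircle) ≠ volume}

/-- Lebesgue measure -/
noncomputable def leb : ProbabilityMeasure UnitAddCircle := ⟨volume, ⟨UnitAddCircle.measure_univ⟩⟩

/-- the image under `x ↦ n x` -/
noncomputable def im (n : ℕ) (ν : ProbabilityMeasure UnitAddCircle) :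
    ProbabilityMeasure UnitAddCircle :=
  ν.map (f := fun x : UnitAddCircle => n • x) (continuous_nsmul n).measurable.aemeasurable

lemma im_coe (n : ℕ) (ν : ProbabilityMeasure UnitAddCircle) :
    ((im n ν : ProbabilityMeasure UnitAddCircle) : Measure UnitAddCircle) =
      (ν : Measure UnitAddCircle).map fun x : UnitAddCircle => n • x := rfl

lemma im_mem {p q : ℕ} (hp : 2 ≤ p) {ν : ProbabilityMeasure UnitAddCircle} (h : ν ∈ Exc p q) {n : ℕ}
    (hn : 1 ≤ n) : im n ν ∈ Exc p q :=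
  ⟨image_inv h.1 n, image_inv h.2.1 n, fun x => image_atomless h.2.2.1 hn x, image_erg h.2.2.2.1 n,
    image_ne hp h.1 h.2.2.2.2 hn⟩

/-- exceptional measures with small coefficients -/
lemma small {p q : ℕ} (hp : 2 ≤ p) {ν : ProbabilityMeasure UnitAddCircle} (h : ν ∈ Exc p q)
    {B : Finset ℤ} (hB : (0 : ℤ) ∉ B) {ε : ℝ} (hε : 0 < ε) :
    ∃ n : ℕ, 1 ≤ n ∧ im n ν ∈ Exc p q ∧ ∀ b ∈ B, ‖cf (im n ν) b‖ < ε := by
  classical
  have h1 := (density_one (μ := (ν : Measure UnitAddCircle)) h.2.2.1 hB hε).eventually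
    (lt_mem_nhds (show (1 / 2 : ℝ) < 1 by norm_num))
  obtain ⟨N, h2, h3⟩ := (h1.and (eventually_gt_atTop 2)).exists
  have hN : (0 : ℝ) < N := by exact_mod_cast (show 0 < N by omega)
  rw [lt_div_iff₀ hN] at h2
  have h4 : 1 < ((Finset.range N).filter fun n : ℕ =>
      ∀ b ∈ B, ‖cf ((ν : Measure UnitAddCircle).map fun x : UnitAddCircle => n • x) b‖ < ε).card := by
    have h5 : (2 : ℝ) < N := by exact_mod_cast h3
    have h6 : (1 : ℝ) < (((Finset.range N).filter fun n : ℕ => ∀ b ∈ B,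
      ‖cf ((ν : Measure UnitAddCircle).map fun x : UnitAddCircle => n • x) b‖ < ε).card : ℝ) := by
      linarith
    exact_mod_cast h6
  obtain ⟨n, hn, hn0⟩ := Finset.exists_mem_ne h4 0
  exact ⟨n, Nat.pos_of_ne_zero hn0, im_mem hp h (Nat.pos_of_ne_zero hn0), (Finset.mem_filter.1 hn).2⟩

/-- a criterion for Lebesgue measure to be in the closure of a set of measures -/
theorem leb_closure {A : Set (ProbabilityMeasure UnitAddCircle)}
    (h1 : ∀ (B : Finset ℤ) (ε : ℝ), (0 : ℤ) ∉ B → 0 < ε → ∃ η ∈ A, ∀ b ∈ B, ‖cf η b‖ < ε) :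
    leb ∈ closure A := by
  have h1 : ∀ k : ℕ, ∃ η ∈ A,
      ∀ b ∈ (Finset.Icc (-(k : ℤ)) k).erase 0, ‖cf η b‖ < 1 / ((k : ℝ) + 1) := fun k =>
    h1 _ _ (by simp) (by positivity)
  choose u hn1 hn2 using h1
  set F : Ultrafilter ℕ := hyperfilter ℕ with hF
  have hFle : (F : Filter ℕ) ≤ atTop := by
    rw [← Nat.cofinite_eq_atTop]; exact hyperfilter_le_cofinite
  obtain ⟨η, -, hη⟩ := (isCompact_univ (X := ProbabilityMeasure UnitAddCircle)).ultrafilter_le_nhds
    (F.map u) (by simp)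
  have ht : Tendsto u F (𝓝 η) := hη
  have hη' : η = leb := by
    apply Subtype.ext
    show (η : Measure UnitAddCircle) = volume
    have hvol : IsProbabilityMeasure (volume : Measure UnitAddCircle) :=
      ⟨UnitAddCircle.measure_univ⟩
    refine ext_cf fun m hm => ?_
    rw [cf_vol hm]
    have h2 := (ProbabilityMeasure.tendsto_iff_forall_integral_rclike_tendsto ℂ).1 ht
      (BoundedContinuousFunction.mkOfCompact (fourier m))
    have h3 : Tendsto (fun k => cf (u k) m) F (𝓝 (cf η m)) := h2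
    have h4 : Tendsto (fun k => cf (u k) m) atTop (𝓝 0) := by
      refine squeeze_zero_norm' ?_ tendsto_one_div_add_atTop_nhds_zero_nat
      filter_upwards [eventually_ge_atTop m.natAbs] with k hk
      refine (hn2 k m ?_).le
      rw [Finset.mem_erase, Finset.mem_Icc]
      exact ⟨hm, by omega, by omega⟩
    exact tendsto_nhds_unique h3 (h4.mono_left hFle)
  rw [← hη']
  exact mem_closure_of_tendsto ht (Eventually.of_forall fun k => hn1 k)

/-- exceptional lifts with small coefficients -/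
lemma small_lift {p q : ℕ} (hp : 2 ≤ p) (hq : 2 ≤ q) {ν : ProbabilityMeasure UnitAddCircle}
    (h : ν ∈ Exc p q) {B : Finset ℤ} (hB : (0 : ℤ) ∉ B) {ε : ℝ} (hε : 0 < ε) :
    ∃ (n : ℕ) (η : ProbabilityMeasure UnitAddCircle), 1 ≤ n ∧ η ∈ Exc p q ∧ im n η = ν ∧
      ∀ b ∈ B, ‖cf η b‖ < ε := by
  obtain ⟨K, hK⟩ := exists_nat_gt ((B.card : ℝ) / ε ^ 2)
  have hK0 : 0 < K := by
    rcases Nat.eq_zero_or_pos K with rfl | h
    · have : (0 : ℝ) ≤ (B.card : ℝ) / ε ^ 2 := by positivity
      push_cast at hK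
      linarith
    · exact h
  set m : ℕ := B.sup Int.natAbs with hm
  obtain ⟨n, hn, hnp⟩ := Nat.exists_infinite_primes (p + q + m * p ^ K + 1)
  have hcop : ∀ r : ℕ, 2 ≤ r → r < n → Nat.Coprime n r := fun r hr hrn =>
    hnp.coprime_iff_not_dvd.2 fun hd => absurd (Nat.le_of_dvd (by omega) hd) (by omega)
  set S : Finset ℕ := (Finset.range K).image fun j => p ^ j with hS
  have hinj : Set.InjOn (fun j : ℕ => p ^ j) (Finset.range K) := fun i _ j _ h =>
    Nat.pow_right_injective hp h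
  have hcard : S.card = K := by rw [hS, Finset.card_image_of_injOn hinj, Finset.card_range]
  have hSne : S.Nonempty := by
    rw [← Finset.card_pos, hcard]
    exact hK0
  have hSB : ∀ s ∈ S, 0 < s ∧ (∃ i j : ℕ, s = p ^ i * q ^ j) ∧ ∀ b ∈ B, b.natAbs * s ≤ n := by
    intro s hs
    rw [hS, Finset.mem_image] at hs
    obtain ⟨j, hj, rfl⟩ := hs
    refine ⟨pow_pos (by omega) _, ⟨j, 0, by simp⟩, fun b hb => ?_⟩
    have h1 : b.natAbs ≤ m := Finset.le_sup (f := Int.natAbs) hb
    have h2 : p ^ j ≤ p ^ K := Nat.pow_le_pow_right (by omega) (Finset.mem_range.1 hj).le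
    have h3 := Nat.mul_le_mul h1 h2
    omega
  obtain ⟨ν', a1, a2, a3, a4, a5, a6⟩ := erg_lift hnp.pos (hcop p hp (by omega))
    (hcop q hq (by omega)) h.1 h.2.1 h.2.2.2.1 hSne hB hSB
  refine ⟨n, ⟨ν', a1⟩, hnp.pos, ⟨a2, a3, fun x => lift_atomless a5 h.2.2.1 x, a4, ?_⟩, ?_, ?_⟩
  · intro hv
    change ν' = volume at hv
    rw [hv] at a5
    have h1 : (volume : Measure UnitAddCircle).map (fun x : UnitAddCircle => n • x) = volume := by
      have hvol : IsProbabilityMeasure (volume : Measure UnitAddCircle) :=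
        ⟨UnitAddCircle.measure_univ⟩
      have : IsProbabilityMeasure
          ((volume : Measure UnitAddCircle).map fun x : UnitAddCircle => n • x) :=
        Measure.isProbabilityMeasure_map (continuous_nsmul n).measurable.aemeasurable
      refine ext_cf fun k hk => ?_
      rw [cf_map, cf_vol hk, cf_vol (mul_ne_zero hk (by exact_mod_cast hnp.ne_zero))]
    rw [h1] at a5
    exact h.2.2.2.2 a5.symm
  · exact Subtype.ext a5
  · intro b hb
    have h1 : ‖cf ν' b‖ ^ 2 < ε ^ 2 := by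
      calc ‖cf ν' b‖ ^ 2 ≤ ∑ b ∈ B, ‖cf ν' b‖ ^ 2 :=
            Finset.single_le_sum (f := fun b : ℤ => ‖cf ν' b‖ ^ 2) (fun c _ => sq_nonneg _) hb
        _ ≤ B.card / S.card := a6
        _ < ε ^ 2 := by
            rw [hcard, div_lt_iff₀ (by exact_mod_cast hK0)]
            rw [div_lt_iff₀ (by positivity)] at hK
            linarith
    exact lt_of_pow_lt_pow_left₀ 2 hε.le h1

/-- Lebesgue measure is a limit of the images of an exceptional measure -/
theorem leb_mem_closure {p q : ℕ} (hp : 2 ≤ p) {ν : ProbabilityMeasure UnitAddCircle}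
    (h : ν ∈ Exc p q) : leb ∈ closure {η | η ∈ Exc p q ∧ ∃ n : ℕ, 1 ≤ n ∧ η = im n ν} :=
  leb_closure fun B ε hB hε => by
    obtain ⟨n, hn, h1, h2⟩ := small hp h hB hε
    exact ⟨im n ν, ⟨h1, n, hn, rfl⟩, h2⟩

/-- Lebesgue measure is a limit of the ergodic lifts of an exceptional measure -/
theorem leb_mem_closure' {p q : ℕ} (hp : 2 ≤ p) (hq : 2 ≤ q)
    {ν : ProbabilityMeasure UnitAddCircle} (h : ν ∈ Exc p q) :
    leb ∈ closure {η | η ∈ Exc p q ∧ ∃ n : ℕ, 1 ≤ n ∧ ν = im n η} :=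
  leb_closure fun B ε hB hε => by
    obtain ⟨n, η, hn, h1, h2, h3⟩ := small_lift hp hq h hB hε
    exact ⟨η, ⟨h1, n, hn, h2.symm⟩, h3⟩

lemma leb_not_mem (p q : ℕ) : leb ∉ Exc p q := fun h => h.2.2.2.2 rfl

/-- **Furstenberg's conjecture is local at Lebesgue measure.** -/
theorem tfae {p q : ℕ} (hp : 2 ≤ p) :
    List.TFAE [
      ∀ μ : Measure UnitAddCircle, IsProbabilityMeasure μ →
        MeasurePreserving (fun x : UnitAddCircle => p • x) μ μ →
        MeasurePreserving (fun x : UnitAddCircle => q • x) μ μ → (∀ x, μ {x} = 0) → μ = volume,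
      Exc p q = ∅,
      (Exc p q).Finite,
      IsClosed (Exc p q),
      leb ∉ closure (Exc p q),
      ∃ (B : Finset ℤ) (ε : ℝ), (0 : ℤ) ∉ B ∧ 0 < ε ∧
        ∀ ν ∈ Exc p q, ∃ b ∈ B, ε ≤ ‖∫ x, (fourier b x : ℂ) ∂(ν : Measure UnitAddCircle)‖,
      ∃ (f : C(UnitAddCircle, ℝ)) (c : ℝ), ∫ x, f x < c ∧
        ∀ ν ∈ Exc p q, c ≤ ∫ x, f x ∂(ν : Measure UnitAddCircle)] := by
  have key : (Exc p q).Nonempty → leb ∈ closure (Exc p q) := by
    rintro ⟨ν, hν⟩
    exact closure_mono (fun η hη => hη.1) (leb_mem_closure hp hν)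
  tfae_have 1 → 2 := by
    intro h
    rw [eq_empty_iff_forall_notMem]
    intro ν hν
    exact hν.2.2.2.2 (h ν inferInstance hν.1 hν.2.1 hν.2.2.1)
  tfae_have 2 → 1 := by
    intro h μ hμ h1 h2 h3
    by_contra hne
    obtain ⟨ν, hν, a, b, c, d, e⟩ := exists_erg hp h1 h2 h3 hne
    have : (⟨ν, hν⟩ : ProbabilityMeasure UnitAddCircle) ∈ Exc p q := ⟨a, b, c, d, e⟩
    rw [h] at this
    exact this
  tfae_have 2 → 3 := by
    intro h
    rw [h]
    exact finite_empty
  tfae_have 3 → 4 := fun h => h.isClosed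
  tfae_have 4 → 5 := by
    intro h
    rw [h.closure_eq]
    exact leb_not_mem p q
  tfae_have 5 → 2 := by
    intro h
    by_contra hne
    exact h (key (nonempty_iff_ne_empty.2 hne))
  tfae_have 2 → 6 := by
    intro h
    refine ⟨∅, 1, by simp, one_pos, fun ν hν => ?_⟩
    rw [h] at hν
    exact absurd hν (notMem_empty ν)
  tfae_have 6 → 2 := by
    rintro ⟨B, ε, hB, hε, h⟩
    rw [eq_empty_iff_forall_notMem]
    intro ν hν
    obtain ⟨n, hn, h1, h2⟩ := small hp hν hB hε
    obtain ⟨b, hb, hbe⟩ := h _ h1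
    exact absurd (h2 b hb) (not_lt.2 hbe)
  tfae_have 2 → 7 := by
    intro h
    refine ⟨0, 1, by simp, fun ν hν => ?_⟩
    rw [h] at hν
    exact absurd hν (notMem_empty ν)
  tfae_have 7 → 2 := by
    rintro ⟨f, c, hfc, h⟩
    by_contra hne
    have h1 := key (nonempty_iff_ne_empty.2 hne)
    have h2 : Continuous fun η : ProbabilityMeasure UnitAddCircle =>
        ∫ x, f x ∂(η : Measure UnitAddCircle) := by
      rw [continuous_iff_continuousAt]
      intro η
      exact (ProbabilityMeasure.tendsto_iff_forall_integral_tendsto.1 (tendsto_id (x := 𝓝 η)))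
        (BoundedContinuousFunction.mkOfCompact f)
    have h3 : IsClosed {η : ProbabilityMeasure UnitAddCircle |
        c ≤ ∫ x, f x ∂(η : Measure UnitAddCircle)} := isClosed_le continuous_const h2
    have h4 : leb ∈ {η : ProbabilityMeasure UnitAddCircle |
        c ≤ ∫ x, f x ∂(η : Measure UnitAddCircle)} := closure_minimal (fun ν hν => h ν hν) h3 h1
    have h5 : c ≤ ∫ x, f x := h4
    linarith
  tfae_finish

/-- infinitely many images -/
theorem im_infinite {p q : ℕ} (hp : 2 ≤ p) {ν : ProbabilityMeasure UnitAddCircle}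
    (h : ν ∈ Exc p q) : {η | ∃ n : ℕ, 1 ≤ n ∧ η = im n ν}.Infinite := by
  intro hfin
  have h1 : {η | η ∈ Exc p q ∧ ∃ n : ℕ, 1 ≤ n ∧ η = im n ν} = {η | ∃ n : ℕ, 1 ≤ n ∧ η = im n ν} := by
    ext η
    constructor
    · exact fun h => h.2
    · rintro ⟨n, hn, rfl⟩
      exact ⟨im_mem hp h hn, n, hn, rfl⟩
  have h2 := leb_mem_closure hp h
  rw [h1, hfin.isClosed.closure_eq] at h2
  obtain ⟨n, hn, h3⟩ := h2
  have h4 := im_mem hp h hn
  rw [← h3] at h4
  exact leb_not_mem p q h4

end Pool.Agent.K3h68.IL
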