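import Pool.Agent.K3h68.IL.Wie

/-!
Images of an invariant measure under `x ↦ n x` that are different from Lebesgue measure accumulate
at Lebesgue measure.
-/

set_option autoImplicit false

open MeasureTheory Filter Topology Set

namespace Pool.Agent.K3h68.IL

open Pool.Agent.R202.STP

open Classical in
/-- an unbounded set of natural numbers of density zero has elements preceded by long gaps -/
theorem gap {D : ℕ → Prop} (hinf : ∀ M : ℕ, ∃ n, M < n ∧ D n)
    (hden : ∀ δ : ℝ, 0 < δ → ∀ᶠ N : ℕ in atTop,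
      (((Finset.range N).filter D).card : ℝ) ≤ δ * N) (L : ℕ) :
    ∃ n, L < n ∧ D n ∧ ∀ m, m < n → n ≤ m + L → ¬ D m := by
  by_contra hcon
  push Not at hcon
  have key : ∀ n, D n → n ≤ ((Finset.range (n + 1)).filter D).card * (L + 1) := by
    intro n
    induction n using Nat.strong_induction_on with
    | _ n ih =>
      intro hn
      have hmem : n ∈ (Finset.range (n + 1)).filter D := by
        rw [Finset.mem_filter, Finset.mem_range]
        exact ⟨Nat.lt_succ_self n, hn⟩
      by_cases hL : n ≤ L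
      · have h1 : 1 ≤ ((Finset.range (n + 1)).filter D).card := Finset.card_pos.2 ⟨n, hmem⟩
        calc n ≤ L + 1 := by omega
          _ = 1 * (L + 1) := (one_mul _).symm
          _ ≤ _ := Nat.mul_le_mul_right _ h1
      · obtain ⟨m, hmn, hmL, hm⟩ := hcon n (by omega) hn
        have h2 := ih m hmn hm
        have h3 : ((Finset.range (m + 1)).filter D).card + 1 ≤
            ((Finset.range (n + 1)).filter D).card := by
          have h4 : insert n ((Finset.range (m + 1)).filter D) ⊆ (Finset.range (n + 1)).filter D := by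
            intro k hk
            rw [Finset.mem_insert] at hk
            rcases hk with rfl | hk
            · exact hmem
            · rw [Finset.mem_filter, Finset.mem_range] at hk ⊢
              exact ⟨by omega, hk.2⟩
          have h5 := Finset.card_le_card h4
          rwa [Finset.card_insert_of_notMem (by
            rw [Finset.mem_filter, Finset.mem_range]
            omega)] at h5
        have h6 := Nat.mul_le_mul_right (L + 1) h3
        rw [add_mul, one_mul] at h6
        omega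
  obtain ⟨N₀, hN₀⟩ := eventually_atTop.1 (hden (1 / (2 * (L + 2))) (by positivity))
  obtain ⟨n, hn1, hn2⟩ := hinf (N₀ + 1)
  have h1 := hN₀ (n + 1) (by omega)
  have h2 := key n hn2
  have h3 : (n : ℝ) ≤ (((Finset.range (n + 1)).filter D).card : ℝ) * ((L : ℝ) + 1) := by
    exact_mod_cast h2
  have h4 : (n : ℝ) ≤ 1 / (2 * (L + 2)) * ((n : ℝ) + 1) * (L + 1) := by
    refine h3.trans ?_
    push_cast at h1
    exact mul_le_mul_of_nonneg_right h1 (by positivity)
  have h5 : (1 : ℝ) ≤ n := by
    have : 1 ≤ n := by omega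
    exact_mod_cast this
  have h6 : 1 / (2 * ((L : ℝ) + 2)) * ((n : ℝ) + 1) * (L + 1) < n := by
    have hL : (0 : ℝ) ≤ L := Nat.cast_nonneg L
    rw [one_div, inv_mul_eq_div, div_mul_eq_mul_div, div_lt_iff₀ (by positivity)]
    nlinarith
  linarith

/-- sequences in `D` with differences outside of `D` -/
theorem sep {D : ℕ → Prop} (h : ∀ L, ∃ n, L < n ∧ D n ∧ ∀ m, m < n → n ≤ m + L → ¬ D m) (K : ℕ) :
    ∃ F : Finset ℕ, F.card = K ∧ (∀ n ∈ F, D n ∧ 0 < n) ∧ ∀ n ∈ F, ∀ m ∈ F, m < n → ¬ D (n - m) := by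
  induction K with
  | zero => exact ⟨∅, rfl, by simp, by simp⟩
  | succ K ih =>
    obtain ⟨F, hF, hFD, hFs⟩ := ih
    obtain ⟨n, hn1, hn2, hn3⟩ := h (F.sup id + 1)
    have hle : ∀ m ∈ F, m ≤ F.sup id := fun m hm => Finset.le_sup (f := id) hm
    have hnF : n ∉ F := fun h => by
      have := hle n h
      omega
    refine ⟨insert n F, by rw [Finset.card_insert_of_notMem hnF, hF], ?_, ?_⟩
    · intro m hm
      rw [Finset.mem_insert] at hm
      rcases hm with rfl | hm
      · exact ⟨hn2, by omega⟩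
      · exact hFD m hm
    · intro a ha b hb hba
      rw [Finset.mem_insert] at ha hb
      rcases ha with rfl | ha
      · rcases hb with rfl | hb
        · omega
        · have hb' := hle b hb
          have hb0 := (hFD b hb).2
          exact hn3 (a - b) (by omega) (by omega)
      · rcases hb with rfl | hb
        · have := hle a ha
          omega
        · exact hFs a ha b hb hba

lemma cf_neg (μ : Measure UnitAddCircle) (n : ℤ) : ‖cf μ (-n)‖ = ‖cf μ n‖ := by
  unfold cf
  have h1 : ∫ y, (fourier (-n) y : ℂ) ∂μ = (starRingEnd ℂ) (∫ y, (fourier n y : ℂ) ∂μ) := by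
    rw [← integral_conj]
    exact integral_congr_ae (Eventually.of_forall fun y => fourier_neg)
  rw [h1, RCLike.norm_conj]

lemma ph_neg (μ : Measure UnitAddCircle) (B : Finset ℤ) (n : ℤ) : ph μ B (-n) = ph μ B n := by
  unfold ph
  refine Finset.sum_congr rfl fun b _ => ?_
  rw [mul_neg, cf_neg]

lemma ph_zero (μ : Measure UnitAddCircle) [IsProbabilityMeasure μ] (B : Finset ℤ) :
    ph μ B 0 = B.card := by
  unfold ph
  simp [cf_zero]

/-- no atomless measure has the properties that were excluded -/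
theorem no_gap {μ : Measure UnitAddCircle} [IsProbabilityMeasure μ] (hna : ∀ x, μ {x} = 0)
    {B : Finset ℤ} (hB : (0 : ℤ) ∉ B) {D : ℕ → Prop} (hinf : ∀ M : ℕ, ∃ n, M < n ∧ D n)
    {ε : ℝ} (hε : 0 < ε) (h1 : ∀ n : ℕ, D n → ε ≤ ph μ B n)
    (h0 : ∀ n : ℕ, 0 < n → ¬ D n → ph μ B n = 0) : False := by
  classical
  have hden : ∀ δ : ℝ, 0 < δ → ∀ᶠ N : ℕ in atTop,
      (((Finset.range N).filter D).card : ℝ) ≤ δ * N := by
    intro δ hδ
    have h2 : Tendsto (fun N : ℕ => ∑ b ∈ B, (∑ n ∈ Finset.range N, ‖cf μ (b * n)‖ ^ 2) / (N : ℝ))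
        atTop (𝓝 (∑ _b ∈ B, (0 : ℝ))) := by
      refine tendsto_finsetSum _ fun b hb => wiener hna ?_
      rintro rfl
      exact hB hb
    rw [Finset.sum_const_zero] at h2
    have h3 := h2.eventually (gt_mem_nhds (show (0 : ℝ) < δ * ε by positivity))
    filter_upwards [h3, eventually_gt_atTop 0] with N hN hN0
    have hN0' : (0 : ℝ) < N := by exact_mod_cast hN0
    have h4 : ∑ b ∈ B, (∑ n ∈ Finset.range N, ‖cf μ (b * n)‖ ^ 2) / (N : ℝ) =
        (∑ n ∈ Finset.range N, ph μ B n) / N := by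
      unfold ph
      rw [← Finset.sum_div, Finset.sum_comm]
    rw [h4, div_lt_iff₀ hN0'] at hN
    have h5 : (((Finset.range N).filter D).card : ℝ) * ε ≤ ∑ n ∈ Finset.range N, ph μ B n := by
      calc (((Finset.range N).filter D).card : ℝ) * ε = ∑ _n ∈ (Finset.range N).filter D, ε := by
            rw [Finset.sum_const, nsmul_eq_mul]
        _ ≤ ∑ n ∈ (Finset.range N).filter D, ph μ B n :=
            Finset.sum_le_sum fun n hn => h1 n (Finset.mem_filter.1 hn).2
        _ ≤ _ := Finset.sum_le_sum_of_subset_of_nonneg (Finset.filter_subset _ _)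
            fun n _ _ => ph_nonneg μ B n
    have h6 : (((Finset.range N).filter D).card : ℝ) * ε ≤ (δ * N) * ε := by nlinarith
    exact le_of_mul_le_mul_right h6 hε
  have hg := gap hinf (fun δ hδ => by
    filter_upwards [hden δ hδ] with N hN
    convert hN)
  obtain ⟨n₁, hn₁, hDn₁⟩ := hinf 0
  have hcard : 0 < (B.card : ℝ) := by
    have h2 := h1 n₁ hDn₁
    by_contra hc
    have h3 : B.card = 0 := by
      have : (0 : ℝ) ≤ B.card := Nat.cast_nonneg _
      have h4 : (B.card : ℝ) = 0 := by linarith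
      exact_mod_cast h4
    rw [Finset.card_eq_zero] at h3
    subst h3
    unfold ph at h2
    simp at h2
    linarith
  obtain ⟨K, hK⟩ := exists_nat_gt ((B.card : ℝ) ^ 2 / ε ^ 2)
  obtain ⟨F, hF, hFD, hFs⟩ := sep hg K
  have hsum : ∑ n ∈ F, ∑ m ∈ F, ph μ B ((n : ℤ) - m) = K * B.card := by
    have h2 : ∀ n ∈ F, ∑ m ∈ F, ph μ B ((n : ℤ) - m) = B.card := by
      intro n hn
      rw [Finset.sum_eq_single_of_mem n hn]
      · rw [sub_self, ph_zero]
      · intro m hm hmn
        rcases lt_or_gt_of_ne hmn with h | h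
        · have h3 := h0 (n - m) (by omega) (hFs n hn m hm h)
          rwa [Nat.cast_sub h.le] at h3
        · have h3 := h0 (m - n) (by omega) (hFs m hm n hn h)
          rw [Nat.cast_sub h.le] at h3
          rw [← neg_sub, ph_neg, h3]
    rw [Finset.sum_congr rfl h2, Finset.sum_const, nsmul_eq_mul, hF]
  have hlow : (K : ℝ) * ε ≤ ∑ n ∈ F, ph μ B n := by
    calc (K : ℝ) * ε = ∑ _n ∈ F, ε := by rw [Finset.sum_const, nsmul_eq_mul, hF]
      _ ≤ _ := Finset.sum_le_sum fun n hn => h1 n (hFD n hn).1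
  have h2 := bessel μ B F (ε / B.card)
  rw [hsum] at h2
  have h3 : 2 * (ε / B.card) * (K * ε) ≤ 2 * (ε / B.card) * ∑ n ∈ F, ph μ B n :=
    mul_le_mul_of_nonneg_left hlow (by positivity)
  have h4 : (ε / B.card) ^ 2 * (K * B.card) = (ε / B.card) * (K * ε) := by
    field_simp
  rw [h4] at h2
  have h5 : (ε / B.card) * (K * ε) ≤ B.card := by linarith
  rw [div_mul_eq_mul_div, div_le_iff₀ hcard] at h5
  rw [div_lt_iff₀ (by positivity)] at hK
  nlinarith

lemma cf_map (μ : Measure UnitAddCircle) (m : ℕ) (n : ℤ) :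
    cf (μ.map fun x : UnitAddCircle => m • x) n = cf μ (n * m) := by
  have h := coeff_map μ (m : ℤ) n
  unfold cf
  rw [← h]
  congr 2

lemma cf_mul {μ : Measure UnitAddCircle} {p : ℕ}
    (hp : MeasurePreserving (fun x : UnitAddCircle => p • x) μ μ) (n : ℤ) :
    cf μ (n * p) = cf μ n := by
  rw [← cf_map, hp.map_eq]

lemma cf_pow {μ : Measure UnitAddCircle} {p : ℕ}
    (hp : MeasurePreserving (fun x : UnitAddCircle => p • x) μ μ) (n : ℤ) (j : ℕ) :
    cf μ (n * (p : ℤ) ^ j) = cf μ n := by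
  induction j with
  | zero => simp
  | succ j ih => rw [pow_succ, ← mul_assoc, cf_mul hp, ih]

lemma cf_vol {n : ℤ} (hn : n ≠ 0) : cf (volume : Measure UnitAddCircle) n = 0 := vol_fourier hn

lemma ext_cf {μ ν : Measure UnitAddCircle} [IsProbabilityMeasure μ] [IsProbabilityMeasure ν]
    (h : ∀ n : ℤ, n ≠ 0 → cf μ n = cf ν n) : μ = ν := by
  refine Pool.Agent.R202.ext_fourier fun n => ?_
  by_cases hn : n = 0
  · subst hn
    have h1 := cf_zero μ
    have h2 := cf_zero ν
    unfold cf at h1 h2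
    rw [h1, h2]
  · exact h n hn

/-- **Images.**  Let `p ≥ 2` and let `μ ≠ volume` be an atomless probability measure on the circle
which is invariant under `x ↦ p x`.  The images of `μ` under the maps `x ↦ n x` that are different
from Lebesgue measure accumulate at Lebesgue measure. -/
theorem image_near {p : ℕ} (hp : 2 ≤ p) {μ : Measure UnitAddCircle} [IsProbabilityMeasure μ]
    (hna : ∀ x, μ {x} = 0) (hip : MeasurePreserving (fun x : UnitAddCircle => p • x) μ μ)
    (hne : μ ≠ volume) {B : Finset ℤ} (hB : (0 : ℤ) ∉ B) {ε : ℝ} (hε : 0 < ε) :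
    ∃ n : ℕ, 1 ≤ n ∧ μ.map (fun x : UnitAddCircle => n • x) ≠ volume ∧
      ∀ b ∈ B, ‖cf (μ.map (fun x : UnitAddCircle => n • x)) b‖ < ε := by
  by_contra hcon
  push Not at hcon
  have hvol : IsProbabilityMeasure (volume : Measure UnitAddCircle) :=
    ⟨UnitAddCircle.measure_univ⟩
  have hex : ∃ a : ℤ, a ≠ 0 ∧ cf μ a ≠ 0 := by
    by_contra h
    push Not at h
    exact hne (ext_cf fun n hn => by rw [h n hn, cf_vol hn])
  obtain ⟨a, ha, hca⟩ := hex
  refine no_gap (μ := μ) hna hB (D := fun n => 1 ≤ n ∧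
    μ.map (fun x : UnitAddCircle => n • x) ≠ volume) (fun M => ?_) (pow_pos hε 2) (fun n hn => ?_)
    (fun n hn hD => ?_)
  · -- unbounded
    refine ⟨a.natAbs * p ^ M.succ, ?_, ?_, ?_⟩
    · have h1 : 1 ≤ a.natAbs := Int.natAbs_pos.2 ha
      have h2 : M < p ^ M.succ := (Nat.lt_succ_self M).trans (Nat.lt_pow_self (by omega))
      calc M < 1 * p ^ M.succ := by rwa [one_mul]
        _ ≤ _ := Nat.mul_le_mul_right _ h1
    · exact Nat.succ_le_of_lt (Nat.mul_pos (Int.natAbs_pos.2 ha) (pow_pos (by omega) _))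
    · intro h
      have h1 := cf_map μ (a.natAbs * p ^ M.succ) 1
      rw [h, cf_vol one_ne_zero, one_mul] at h1
      push_cast at h1
      have h3 : ‖cf μ (|a| * (p : ℤ) ^ M.succ)‖ = ‖cf μ a‖ := by
        rw [cf_pow hip]
        rcases abs_choice a with h4 | h4
        · rw [h4]
        · rw [h4, cf_neg]
      rw [← h1, norm_zero] at h3
      exact hca (norm_eq_zero.1 h3.symm)
  · obtain ⟨b, hb, hbe⟩ := hcon n hn.1 hn.2
    rw [cf_map] at hbe
    unfold ph
    calc ε ^ 2 ≤ ‖cf μ (b * n)‖ ^ 2 := pow_le_pow_left₀ hε.le hbe 2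
      _ ≤ _ := Finset.single_le_sum (f := fun b : ℤ => ‖cf μ (b * n)‖ ^ 2)
          (fun c _ => sq_nonneg _) hb
  · have h1 : μ.map (fun x : UnitAddCircle => n • x) = volume := by
      by_contra h
      exact hD ⟨hn, h⟩
    unfold ph
    refine Finset.sum_eq_zero fun b hb => ?_
    rw [← cf_map, h1, cf_vol (by rintro rfl; exact hB hb)]
    simp

end Pool.Agent.K3h68.IL
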