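import Pool.Agent.K3h68.IL.Comp

/-!
Images of exceptional measures under `x ↦ n x` are exceptional.
-/

set_option autoImplicit false

open MeasureTheory Filter Topology Set
open scoped ENNReal

namespace Pool.Agent.K3h68.IL

open Pool.Agent.R202.STP Pool.Agent.R202.TM

variable {p q : ℕ} {μ : Measure UnitAddCircle} [IsProbabilityMeasure μ]

/-- the sum of a character over a coset of the multiples of `1 / n` -/
lemma sum_coset {n : ℕ} (hn : 0 < n) (m : ℤ) (x : UnitAddCircle) :
    ∑ j ∈ Finset.range n, (fourier m (x + j • uu n) : ℂ) =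
      if (n : ℤ) ∣ m then (n : ℂ) * fourier m x else 0 := by
  have h1 : ∀ j ∈ Finset.range n, (fourier m (x + j • uu n) : ℂ) =
      fourier m x * (fourier m (uu n) : ℂ) ^ j := by
    intro j _
    rw [fourier_pow]
    rw [fourier_apply, fourier_apply, fourier_apply, smul_add, AddCircle.toCircle_add,
      Circle.coe_mul]
    congr 3
    rw [mul_smul, natCast_zsmul]
  rw [Finset.sum_congr rfl h1, ← Finset.mul_sum]
  by_cases hm : (n : ℤ) ∣ m
  · obtain ⟨l, rfl⟩ := hm
    have h2 : (fourier ((n : ℤ) * l) (uu n) : ℂ) = 1 := by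
      rw [fourier_apply, mul_comm, mul_smul, natCast_zsmul, nsmul_uu hn, smul_zero]
      simp
    rw [if_pos (Dvd.intro l rfl), h2]
    simp only [one_pow, Finset.sum_const, Finset.card_range, nsmul_eq_mul, mul_one]
    ring
  · rw [if_neg hm]
    have h2 : (fourier m (uu n) : ℂ) ≠ 1 := by
      intro h
      apply hm
      have h3 := fourier_eq_one h
      have h4 := addOrderOf_dvd_iff_zsmul_eq_zero.2 h3
      rwa [order_uu hn] at h4
    have h3 : (fourier m (uu n) : ℂ) ^ n = 1 := by
      rw [fourier_pow, fourier_apply, mul_smul, natCast_zsmul, nsmul_uu hn, smul_zero]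
      simp
    rw [geom_sum_eq h2, h3]
    simp

/-- **No image is Lebesgue measure.** -/
theorem image_ne (hp2 : 2 ≤ p) (hp : MeasurePreserving (fun x : UnitAddCircle => p • x) μ μ)
    (hne : μ ≠ volume) {n : ℕ} (hn : 0 < n) :
    μ.map (fun x : UnitAddCircle => n • x) ≠ volume := by
  intro hcon
  have hvol : IsProbabilityMeasure (volume : Measure UnitAddCircle) :=
    ⟨UnitAddCircle.measure_univ⟩
  apply hne
  refine ext_cf fun a ha => ?_
  rw [cf_vol ha]
  -- the coefficients at multiples of `n` vanish
  have h0 : ∀ m : ℤ, m ≠ 0 → (n : ℤ) ∣ m → cf μ m = 0 := by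
    rintro m hm ⟨l, rfl⟩
    have h1 := cf_map μ n l
    rw [hcon, cf_vol (by rintro rfl; simp at hm)] at h1
    rw [mul_comm, ← h1]
  have hbound : ∀ N : ℕ, 0 < N → ‖cf μ a‖ ^ 2 ≤ n / N := by
    intro N hN
    set S : Finset ℕ := (Finset.range N).image fun j => p ^ j with hS
    have hinj : Set.InjOn (fun j : ℕ => p ^ j) (Finset.range N) := fun i _ j _ h =>
      Nat.pow_right_injective hp2 h
    have hcard : S.card = N := by rw [hS, Finset.card_image_of_injOn hinj, Finset.card_range]
    have hSne : S.Nonempty := by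
      rw [← Finset.card_pos, hcard]
      exact hN
    have hpr : ∀ s ∈ S, MeasurePreserving (fun x : UnitAddCircle => s • x) μ μ := by
      intro s hs
      rw [hS, Finset.mem_image] at hs
      obtain ⟨j, _, rfl⟩ := hs
      exact pres_pow hp j
    have h1 : ‖cf μ a‖ ^ 2 ≤ ∫ x, ‖avg S a x‖ ^ 2 ∂μ := by
      rw [cf_avg hSne hpr]
      exact sq_le_int (int_avg S a μ) (int_sq_avg S a μ)
    refine h1.trans ?_
    have h2 : ∫ x, ‖avg S a x‖ ^ 2 ∂μ ≤
        ∫ x, ∑ j ∈ Finset.range n, ‖avg S a (x + j • uu n)‖ ^ 2 ∂μ := by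
      refine integral_mono (int_sq_avg S a μ) ?_ fun x => ?_
      · refine integrable_finsetSum _ fun j _ => ?_
        refine Integrable.of_bound (((cont_avg S a).comp
          (continuous_id.add continuous_const)).norm.pow 2).aestronglyMeasurable 1
          (Eventually.of_forall fun x => ?_)
        rw [Real.norm_of_nonneg (sq_nonneg _)]
        exact pow_le_one₀ (norm_nonneg _) (norm_avg S a _)
      · have h3 := Finset.single_le_sum (f := fun j : ℕ => ‖avg S a (x + j • uu n)‖ ^ 2)
          (fun j _ => sq_nonneg _) (Finset.mem_range.2 hn)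
        simpa using h3
    refine h2.trans (le_of_eq ?_)
    have hc : (S.card : ℂ) ≠ 0 := by
      rw [hcard]
      exact_mod_cast hN.ne'
    have h3 : ((∫ x, ∑ j ∈ Finset.range n, ‖avg S a (x + j • uu n)‖ ^ 2 ∂μ : ℝ) : ℂ) =
        ((n / N : ℝ) : ℂ) := by
      rw [← integral_complex_ofReal]
      have h4 : ∀ x : UnitAddCircle, ((∑ j ∈ Finset.range n, ‖avg S a (x + j • uu n)‖ ^ 2 : ℝ) : ℂ) =
          (∑ s ∈ S, ∑ t ∈ S, (if (n : ℤ) ∣ a * ((s : ℤ) - t) then
            (n : ℂ) * fourier (a * ((s : ℤ) - t)) x else 0)) / ((S.card : ℂ) * S.card) := by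
        intro x
        push_cast
        have h5 : ∀ j ∈ Finset.range n, ((‖avg S a (x + j • uu n)‖ : ℂ)) ^ 2 =
            (∑ s ∈ S, ∑ t ∈ S, (fourier (a * ((s : ℤ) - t)) (x + j • uu n) : ℂ)) /
              ((S.card : ℂ) * S.card) := by
          intro j _
          rw [← sq_avg]
          push_cast
          rfl
        rw [Finset.sum_congr rfl h5, ← Finset.sum_div, Finset.sum_comm]
        congr 1
        refine Finset.sum_congr rfl fun s _ => ?_
        rw [Finset.sum_comm]
        refine Finset.sum_congr rfl fun t _ => ?_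
        exact sum_coset hn _ x
      simp_rw [h4]
      rw [integral_div, integral_finsetSum]
      · have h6 : ∀ s ∈ S, ∫ x, ∑ t ∈ S, (if (n : ℤ) ∣ a * ((s : ℤ) - t) then
            (n : ℂ) * fourier (a * ((s : ℤ) - t)) x else 0) ∂μ = n := by
          intro s hs
          rw [integral_finsetSum]
          · rw [Finset.sum_eq_single_of_mem s hs]
            · simp
            · intro t ht hts
              by_cases hd : (n : ℤ) ∣ a * ((s : ℤ) - t)
              · simp only [if_pos hd]
                rw [integral_const_mul]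
                have h7 := h0 (a * ((s : ℤ) - t)) (mul_ne_zero ha (fun h => hts (by omega))) hd
                unfold cf at h7
                rw [h7, mul_zero]
              · simp only [if_neg hd, integral_zero]
          · intro t _
            by_cases hd : (n : ℤ) ∣ a * ((s : ℤ) - t)
            · simp only [if_pos hd]
              exact (int_fourier μ _).const_mul _
            · simp only [if_neg hd]
              exact integrable_zero _ _ _
        rw [Finset.sum_congr rfl h6, Finset.sum_const, nsmul_eq_mul, hcard]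
        push_cast
        have hNC : (N : ℂ) ≠ 0 := by exact_mod_cast hN.ne'
        field_simp
      · intro s _
        refine integrable_finsetSum _ fun t _ => ?_
        by_cases hd : (n : ℤ) ∣ a * ((s : ℤ) - t)
        · simp only [if_pos hd]
          exact (int_fourier μ _).const_mul _
        · simp only [if_neg hd]
          exact integrable_zero _ _ _
    exact_mod_cast h3
  by_contra hca
  have hpos : 0 < ‖cf μ a‖ ^ 2 := by
    have := norm_pos_iff.2 hca
    positivity
  obtain ⟨N, hN⟩ := exists_nat_gt ((n : ℝ) / ‖cf μ a‖ ^ 2)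
  have hN0 : 0 < N := by
    rcases Nat.eq_zero_or_pos N with rfl | h
    · have : (0 : ℝ) ≤ (n : ℝ) / ‖cf μ a‖ ^ 2 := by positivity
      push_cast at hN
      linarith
    · exact h
  have h1 := hbound N hN0
  have hNR : (0 : ℝ) < N := by exact_mod_cast hN0
  rw [le_div_iff₀ hNR] at h1
  rw [div_lt_iff₀ hpos] at hN
  linarith

omit [IsProbabilityMeasure μ] in
/-- images are invariant -/
lemma image_inv (hp : MeasurePreserving (fun x : UnitAddCircle => p • x) μ μ) (n : ℕ) :
    MeasurePreserving (fun x : UnitAddCircle => p • x) (μ.map fun x : UnitAddCircle => n • x)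
      (μ.map fun x : UnitAddCircle => n • x) := by
  have hn : Measurable fun x : UnitAddCircle => n • x := (continuous_nsmul n).measurable
  refine ⟨hp.measurable, ?_⟩
  rw [Measure.map_map hp.measurable hn]
  have : ((fun x : UnitAddCircle => p • x) ∘ fun x : UnitAddCircle => n • x) =
      (fun x : UnitAddCircle => n • x) ∘ fun x : UnitAddCircle => p • x := by
    funext x
    exact smul_comm p n x
  rw [this, ← Measure.map_map hn hp.measurable, hp.map_eq]

omit [IsProbabilityMeasure μ] in
/-- images are ergodic -/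
lemma image_erg (h : JointErg (fun x : UnitAddCircle => p • x) (fun x : UnitAddCircle => q • x) μ)
    (n : ℕ) : JointErg (fun x : UnitAddCircle => p • x) (fun x : UnitAddCircle => q • x)
      (μ.map fun x : UnitAddCircle => n • x) := by
  intro E hE h1 h2
  have hn : Measurable fun x : UnitAddCircle => n • x := (continuous_nsmul n).measurable
  rw [Measure.map_apply hn hE]
  have key : ∀ r : ℕ, (fun x : UnitAddCircle => r • x) ⁻¹' E = E →
      (fun x : UnitAddCircle => r • x) ⁻¹' ((fun x : UnitAddCircle => n • x) ⁻¹' E) =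
        (fun x : UnitAddCircle => n • x) ⁻¹' E := by
    intro r hr
    ext x
    show n • (r • x) ∈ E ↔ n • x ∈ E
    rw [smul_comm n r x]
    conv_rhs => rw [← hr]
    rfl
  exact h _ (hn hE) (key p h1) (key q h2)

omit [IsProbabilityMeasure μ] in
/-- images of atomless measures are atomless -/
lemma image_atomless (hna : ∀ x, μ {x} = 0) {n : ℕ} (hn : 0 < n) (x : UnitAddCircle) :
    (μ.map fun x : UnitAddCircle => n • x) {x} = 0 := by
  have : NullSingletonClass μ := ⟨hna⟩
  rw [Measure.map_apply (continuous_nsmul n).measurable (measurableSet_singleton x)]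
  have h1 : (fun x : UnitAddCircle => n • x) ⁻¹' {x} = fib n x := by
    ext y
    rw [Finset.mem_coe, mem_fib hn]
    rfl
  rw [h1]
  exact (Finset.finite_toSet _).measure_zero μ

/-- lifts of atomless measures are atomless -/
lemma lift_atomless {ν' ν : Measure UnitAddCircle} {n : ℕ}
    (h : ν'.map (fun x : UnitAddCircle => n • x) = ν) (hna : ∀ x, ν {x} = 0) (x : UnitAddCircle) :
    ν' {x} = 0 := by
  refine le_antisymm ?_ zero_le
  calc ν' {x} ≤ ν' ((fun x : UnitAddCircle => n • x) ⁻¹' {n • x}) :=
        measure_mono fun y hy => by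
          rw [mem_singleton_iff] at hy
          subst hy
          rfl
    _ = ν {n • x} := by
        rw [← h, Measure.map_apply (continuous_nsmul n).measurable (measurableSet_singleton _)]
    _ = 0 := hna _

open Classical in
/-- for most `n` the image is close to Lebesgue measure -/
theorem density_one (hna : ∀ x, μ {x} = 0) {B : Finset ℤ} (hB : (0 : ℤ) ∉ B) {ε : ℝ} (hε : 0 < ε) :
    Tendsto (fun N : ℕ => (((Finset.range N).filter fun n : ℕ =>
      ∀ b ∈ B, ‖cf (μ.map fun x : UnitAddCircle => n • x) b‖ < ε).card : ℝ) / N) atTop (𝓝 1) := by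
  have h2 : Tendsto (fun N : ℕ => ∑ b ∈ B, (∑ n ∈ Finset.range N, ‖cf μ (b * n)‖ ^ 2) / (N : ℝ))
      atTop (𝓝 (∑ _b ∈ B, (0 : ℝ))) := by
    refine tendsto_finsetSum _ fun b hb => wiener hna ?_
    rintro rfl
    exact hB hb
  rw [Finset.sum_const_zero] at h2
  have h3 : Tendsto (fun N : ℕ => 1 - (1 / ε ^ 2) * ∑ b ∈ B,
      (∑ n ∈ Finset.range N, ‖cf μ (b * n)‖ ^ 2) / (N : ℝ)) atTop (𝓝 (1 - (1 / ε ^ 2) * 0)) :=
    tendsto_const_nhds.sub (h2.const_mul _)
  rw [mul_zero, sub_zero] at h3
  refine tendsto_of_tendsto_of_tendsto_of_le_of_le' h3 tendsto_const_nhds ?_ ?_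
  · filter_upwards [eventually_gt_atTop 0] with N hN
    have hNR : (0 : ℝ) < N := by exact_mod_cast hN
    set G := (Finset.range N).filter fun n : ℕ =>
      ∀ b ∈ B, ‖cf (μ.map fun x : UnitAddCircle => n • x) b‖ < ε with hG
    set K := (Finset.range N).filter fun n : ℕ =>
      ¬ ∀ b ∈ B, ‖cf (μ.map fun x : UnitAddCircle => n • x) b‖ < ε with hK
    have h4 : G.card + K.card = N := by
      have := Finset.card_filter_add_card_filter_not (s := Finset.range N) (fun n : ℕ =>
        ∀ b ∈ B, ‖cf (μ.map fun x : UnitAddCircle => n • x) b‖ < ε)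
      rwa [Finset.card_range] at this
    have h5 : (K.card : ℝ) * ε ^ 2 ≤ ∑ b ∈ B, ∑ n ∈ Finset.range N, ‖cf μ (b * n)‖ ^ 2 := by
      rw [Finset.sum_comm]
      calc (K.card : ℝ) * ε ^ 2 = ∑ _n ∈ K, ε ^ 2 := by rw [Finset.sum_const, nsmul_eq_mul]
        _ ≤ ∑ n ∈ K, ∑ b ∈ B, ‖cf μ (b * n)‖ ^ 2 := by
            refine Finset.sum_le_sum fun n hn => ?_
            rw [hK, Finset.mem_filter] at hn
            have hn2 := hn.2
            push Not at hn2
            obtain ⟨b, hb, hbe⟩ := hn2
            rw [cf_map] at hbe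
            calc ε ^ 2 ≤ ‖cf μ (b * n)‖ ^ 2 := pow_le_pow_left₀ hε.le hbe 2
              _ ≤ _ := Finset.single_le_sum (f := fun b : ℤ => ‖cf μ (b * n)‖ ^ 2)
                  (fun c _ => sq_nonneg _) hb
        _ ≤ _ := Finset.sum_le_sum_of_subset_of_nonneg (Finset.filter_subset _ _)
            fun n _ _ => Finset.sum_nonneg fun b _ => sq_nonneg _
    rw [← Finset.sum_div, one_div, inv_mul_eq_div, div_div]
    have h6 : (G.card : ℝ) = N - K.card := by
      rw [eq_sub_iff_add_eq]
      exact_mod_cast h4
    rw [h6, sub_div, div_self hNR.ne']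
    refine sub_le_sub_left ?_ 1
    rw [div_le_div_iff₀ hNR (by positivity)]
    nlinarith
  · filter_upwards with N
    refine div_le_one_of_le₀ ?_ (Nat.cast_nonneg _)
    have := Finset.card_filter_le (Finset.range N) (fun n : ℕ =>
      ∀ b ∈ B, ‖cf (μ.map fun x : UnitAddCircle => n • x) b‖ < ε)
    rw [Finset.card_range] at this
    exact_mod_cast this

end Pool.Agent.K3h68.IL
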