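import Pool.Agent.R202.STP

/-!
Wiener's lemma along multiples, and a Bessel inequality for the squared Fourier coefficients of a
measure on the circle.
-/

set_option autoImplicit false

open MeasureTheory Filter Topology Set

namespace Pool.Agent.K3h68.IL

open Pool.Agent.R202.STP

/-- the Fourier coefficient of a measure on the circle -/
noncomputable def cf (μ : Measure UnitAddCircle) (n : ℤ) : ℂ := ∫ x, (fourier n x : ℂ) ∂μ

lemma geom_mean {w : ℂ} (h1 : ‖w‖ = 1) (h : w ≠ 1) :
    Tendsto (fun N : ℕ => (∑ n ∈ Finset.range N, w ^ n) / (N : ℂ)) atTop (𝓝 0) := by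
  have hw : 0 < ‖w - 1‖ := norm_pos_iff.2 (sub_ne_zero.2 h)
  refine squeeze_zero_norm (a := fun N : ℕ => (2 / ‖w - 1‖) * (1 / (N : ℝ))) (fun N => ?_) ?_
  · rw [norm_div, Complex.norm_natCast, geom_sum_eq h, norm_div, mul_one_div]
    refine div_le_div_of_nonneg_right ?_ (Nat.cast_nonneg N)
    refine div_le_div_of_nonneg_right ?_ hw.le
    refine (norm_sub_le _ _).trans ?_
    rw [norm_pow, h1, one_pow, norm_one]
    norm_num
  · have := (tendsto_one_div_atTop_nhds_zero_nat (𝕜 := ℝ)).const_mul (2 / ‖w - 1‖)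
    rwa [mul_zero] at this

lemma fourier_pow (b : ℤ) (n : ℕ) (x : UnitAddCircle) :
    (fourier b x : ℂ) ^ n = fourier (b * n) x := by
  induction n with
  | zero => simp
  | succ n ih =>
    rw [pow_succ, ih]
    push_cast
    rw [mul_add, mul_one, fourier_add]

lemma fourier_eq_one {b : ℤ} {x : UnitAddCircle} (h : (fourier b x : ℂ) = 1) : b • x = 0 := by
  rw [fourier_apply] at h
  have h7 : AddCircle.toCircle (b • x) = AddCircle.toCircle (0 : UnitAddCircle) := by
    rw [AddCircle.toCircle_zero]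
    exact Subtype.ext h
  exact AddCircle.injective_toCircle one_ne_zero h7

lemma finite_tors {b : ℤ} (hb : b ≠ 0) : {x : UnitAddCircle | b • x = 0}.Finite := by
  refine (AddCircle.finite_torsion (1 : ℝ) (Int.natAbs_pos.2 hb)).subset fun t ht => ?_
  have h1 : b • t = 0 := ht
  show b.natAbs • t = 0
  rcases Int.natAbs_eq b with h | h
  · rw [h, natCast_zsmul] at h1
    exact h1
  · rw [h, neg_smul, natCast_zsmul, neg_eq_zero] at h1
    exact h1

lemma prod_ae {μ : Measure UnitAddCircle} [IsProbabilityMeasure μ] (hna : ∀ x, μ {x} = 0)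
    {b : ℤ} (hb : b ≠ 0) : ∀ᵐ z ∂(μ.prod μ), b • (z.1 - z.2) ≠ (0 : UnitAddCircle) := by
  have : NullSingletonClass μ := ⟨hna⟩
  have hcl : IsClosed {z : UnitAddCircle × UnitAddCircle | b • (z.1 - z.2) = 0} :=
    isClosed_eq ((continuous_zsmul b).comp (continuous_fst.sub continuous_snd)) continuous_const
  rw [ae_iff]
  simp only [not_not]
  rw [Measure.measure_prod_null hcl.measurableSet]
  refine Eventually.of_forall fun x => ?_
  show μ (Prod.mk x ⁻¹' {z : UnitAddCircle × UnitAddCircle | b • (z.1 - z.2) = 0}) = 0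
  have hfin : (Prod.mk x ⁻¹' {z : UnitAddCircle × UnitAddCircle | b • (z.1 - z.2) = 0}).Finite := by
    refine ((finite_tors hb).image fun t => x - t).subset fun y hy => ?_
    have hy' : b • (x - y) = 0 := hy
    exact ⟨x - y, hy', by simp⟩
  exact hfin.measure_zero μ

lemma norm_four {m : ℤ} {z : UnitAddCircle × UnitAddCircle} :
    ‖(fourier m (z.1 - z.2) : ℂ)‖ = 1 := norm_fourier m _

lemma cont_four (m : ℤ) : Continuous fun z : UnitAddCircle × UnitAddCircle =>
    (fourier m (z.1 - z.2) : ℂ) := (fourier m).continuous.comp (continuous_fst.sub continuous_snd)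

lemma int_four (μ : Measure UnitAddCircle) [IsProbabilityMeasure μ] (m : ℤ) :
    Integrable (fun z : UnitAddCircle × UnitAddCircle => (fourier m (z.1 - z.2) : ℂ)) (μ.prod μ) :=
  Integrable.of_bound (cont_four m).aestronglyMeasurable 1 (Eventually.of_forall fun _ => norm_four.le)

/-- Wiener's lemma along the multiples of `b` -/
theorem wiener {μ : Measure UnitAddCircle} [IsProbabilityMeasure μ] (hna : ∀ x, μ {x} = 0)
    {b : ℤ} (hb : b ≠ 0) :
    Tendsto (fun N : ℕ => (∑ n ∈ Finset.range N, ‖cf μ (b * n)‖ ^ 2) / (N : ℝ)) atTop (𝓝 0) := by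
  have h1 : Tendsto (fun N : ℕ => ∫ z : UnitAddCircle × UnitAddCircle,
      (∑ n ∈ Finset.range N, (fourier b (z.1 - z.2) : ℂ) ^ n) / (N : ℂ) ∂(μ.prod μ)) atTop
      (𝓝 (∫ _ : UnitAddCircle × UnitAddCircle, (0 : ℂ) ∂(μ.prod μ))) := by
    refine tendsto_integral_of_dominated_convergence (fun _ => 1) (fun N => ?_) (integrable_const _)
      (fun N => ?_) ?_
    · refine Continuous.aestronglyMeasurable ?_
      refine Continuous.div_const ?_ _
      exact continuous_finsetSum _ fun n _ => (cont_four b).pow n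
    · refine Eventually.of_forall fun z => ?_
      rw [norm_div, Complex.norm_natCast]
      refine div_le_one_of_le₀ ?_ (Nat.cast_nonneg N)
      refine (norm_sum_le _ _).trans ?_
      rw [Finset.sum_congr rfl fun n _ => by rw [norm_pow, norm_four, one_pow]]
      simp
    · filter_upwards [prod_ae hna hb] with z hz
      exact geom_mean norm_four fun h => hz (fourier_eq_one h)
  rw [integral_zero] at h1
  have h2 : ∀ N : ℕ, ∫ z : UnitAddCircle × UnitAddCircle,
      (∑ n ∈ Finset.range N, (fourier b (z.1 - z.2) : ℂ) ^ n) / (N : ℂ) ∂(μ.prod μ) =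
      (((∑ n ∈ Finset.range N, ‖cf μ (b * n)‖ ^ 2) / (N : ℝ) : ℝ) : ℂ) := by
    intro N
    rw [integral_div]
    simp_rw [fourier_pow]
    rw [integral_finsetSum _ fun n _ => int_four μ _]
    push_cast
    congr 1
    refine Finset.sum_congr rfl fun n _ => ?_
    rw [sq_coeff]
    push_cast
    rfl
  simp_rw [h2] at h1
  have h3 := (Complex.continuous_re.tendsto _).comp h1
  refine h3.congr fun N => ?_
  exact Complex.ofReal_re _

/-- the sum of the squares of the coefficients at the multiples of `n` by the elements of `B` -/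
noncomputable def ph (μ : Measure UnitAddCircle) (B : Finset ℤ) (n : ℤ) : ℝ :=
  ∑ b ∈ B, ‖cf μ (b * n)‖ ^ 2

lemma ph_nonneg (μ : Measure UnitAddCircle) (B : Finset ℤ) (n : ℤ) : 0 ≤ ph μ B n :=
  Finset.sum_nonneg fun _ _ => sq_nonneg _

lemma cf_zero (μ : Measure UnitAddCircle) [IsProbabilityMeasure μ] : cf μ 0 = 1 := by
  unfold cf
  simp

/-- positive definiteness -/
theorem bessel (μ : Measure UnitAddCircle) [IsProbabilityMeasure μ] (B : Finset ℤ) (F : Finset ℕ)
    (t : ℝ) : 0 ≤ (B.card : ℝ) - 2 * t * ∑ n ∈ F, ph μ B n +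
      t ^ 2 * ∑ n ∈ F, ∑ m ∈ F, ph μ B ((n : ℤ) - m) := by
  have h1 : ∀ b : ℤ, 0 ≤ (1 : ℝ) - 2 * t * ∑ n ∈ F, ‖cf μ (b * n)‖ ^ 2 +
      t ^ 2 * ∑ n ∈ F, ∑ m ∈ F, ‖cf μ (b * ((n : ℤ) - m))‖ ^ 2 := by
    intro b
    set g : UnitAddCircle × UnitAddCircle → ℂ := fun z => ∑ n ∈ F, (fourier (b * n) (z.1 - z.2) : ℂ)
      with hg
    have e0 : ∀ z, ((‖1 - (t : ℂ) * g z‖ ^ 2 : ℝ) : ℂ) =
        1 - t * g z - t * (starRingEnd ℂ) (g z) + t ^ 2 * (g z * (starRingEnd ℂ) (g z)) := by
      intro z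
      have e1 : ((‖1 - (t : ℂ) * g z‖ ^ 2 : ℝ) : ℂ) =
          (1 - (t : ℂ) * g z) * (starRingEnd ℂ) (1 - (t : ℂ) * g z) := by
        rw [Complex.mul_conj, Complex.normSq_eq_norm_sq]
      rw [e1, map_sub, map_one, map_mul, Complex.conj_ofReal]
      ring
    have e2 : ∀ z, g z * (starRingEnd ℂ) (g z) =
        ∑ n ∈ F, ∑ m ∈ F, (fourier (b * ((n : ℤ) - m)) (z.1 - z.2) : ℂ) := by
      intro z
      simp only [hg]
      rw [map_sum, Finset.sum_mul_sum]
      refine Finset.sum_congr rfl fun n _ => Finset.sum_congr rfl fun m _ => ?_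
      rw [← fourier_neg, ← fourier_add]
      congr 2
      ring
    have e3 : ∀ z, (starRingEnd ℂ) (g z) = ∑ n ∈ F, (fourier (-(b * n)) (z.1 - z.2) : ℂ) := by
      intro z
      simp only [hg]
      rw [map_sum]
      exact Finset.sum_congr rfl fun n _ => fourier_neg.symm
    have hig : Integrable g (μ.prod μ) := integrable_finsetSum _ fun n _ => int_four μ _
    have hig2 : Integrable (fun z => (starRingEnd ℂ) (g z)) (μ.prod μ) := by
      simp_rw [e3]
      exact integrable_finsetSum _ fun n _ => int_four μ _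
    have hig3 : Integrable (fun z => g z * (starRingEnd ℂ) (g z)) (μ.prod μ) := by
      simp_rw [e2]
      exact integrable_finsetSum _ fun n _ => integrable_finsetSum _ fun m _ => int_four μ _
    have h2 : ∫ z, ((‖1 - (t : ℂ) * g z‖ ^ 2 : ℝ) : ℂ) ∂(μ.prod μ) =
        (((1 : ℝ) - 2 * t * ∑ n ∈ F, ‖cf μ (b * n)‖ ^ 2 +
      t ^ 2 * ∑ n ∈ F, ∑ m ∈ F, ‖cf μ (b * ((n : ℤ) - m))‖ ^ 2 : ℝ) : ℂ) := by
      simp_rw [e0]
      have i1 : Integrable (fun z => (1 : ℂ) - t * g z) (μ.prod μ) :=
        (integrable_const _).sub (hig.const_mul _)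
      have i2 : Integrable (fun z => (1 : ℂ) - t * g z - t * (starRingEnd ℂ) (g z)) (μ.prod μ) :=
        i1.sub (hig2.const_mul _)
      rw [integral_add i2 (hig3.const_mul _), integral_sub i1 (hig2.const_mul _),
        integral_sub (integrable_const _) (hig.const_mul _), integral_const, integral_const_mul,
        integral_const_mul, integral_const_mul]
      have j1 : ∫ z, g z ∂(μ.prod μ) = ((∑ n ∈ F, ‖cf μ (b * n)‖ ^ 2 : ℝ) : ℂ) := by
        simp only [hg]
        rw [integral_finsetSum _ fun n _ => int_four μ _]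
        push_cast
        refine Finset.sum_congr rfl fun n _ => ?_
        rw [sq_coeff]
        push_cast
        rfl
      have j2 : ∫ z, (starRingEnd ℂ) (g z) ∂(μ.prod μ) = ((∑ n ∈ F, ‖cf μ (b * n)‖ ^ 2 : ℝ) : ℂ) := by
        rw [integral_conj, j1, Complex.conj_ofReal]
      have j3 : ∫ z, g z * (starRingEnd ℂ) (g z) ∂(μ.prod μ) =
          ((∑ n ∈ F, ∑ m ∈ F, ‖cf μ (b * ((n : ℤ) - m))‖ ^ 2 : ℝ) : ℂ) := by
        simp_rw [e2]
        rw [integral_finsetSum _ fun n _ => integrable_finsetSum _ fun m _ => int_four μ _]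
        push_cast
        refine Finset.sum_congr rfl fun n _ => ?_
        rw [integral_finsetSum _ fun n _ => int_four μ _]
        refine Finset.sum_congr rfl fun m _ => ?_
        rw [sq_coeff]
        push_cast
        rfl
      rw [j1, j2, j3, probReal_univ]
      push_cast
      simp only [one_smul]
      ring
    rw [integral_complex_ofReal] at h2
    have h3 := Complex.ofReal_injective h2
    rw [← h3]
    exact integral_nonneg fun z => sq_nonneg _
  have h2 : (B.card : ℝ) - 2 * t * ∑ n ∈ F, ph μ B n +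
      t ^ 2 * ∑ n ∈ F, ∑ m ∈ F, ph μ B ((n : ℤ) - m) =
      ∑ b ∈ B, ((1 : ℝ) - 2 * t * ∑ n ∈ F, ‖cf μ (b * n)‖ ^ 2 +
      t ^ 2 * ∑ n ∈ F, ∑ m ∈ F, ‖cf μ (b * ((n : ℤ) - m))‖ ^ 2) := by
    unfold ph
    rw [Finset.sum_add_distrib, Finset.sum_sub_distrib, ← Finset.mul_sum, ← Finset.mul_sum]
    congr 1
    · congr 1
      · simp
      · congr 1
        exact Finset.sum_comm
    · congr 1
      rw [Finset.sum_comm (s := B)]
      refine Finset.sum_congr rfl fun n _ => ?_
      exact Finset.sum_comm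
  rw [h2]
  exact Finset.sum_nonneg fun b _ => h1 b

end Pool.Agent.K3h68.IL
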